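import Pool.Agent.H230.C3.Grad
import Pool.Graph.R_seed8.Y310.SC.Osc

/-!
The cylindrical extension of the homogeneous `p`-harmonic function to `R^(3+m)`, as the first
component of a map to `R^n`.
-/

set_option autoImplicit false

namespace Pool.Agent.H230.C3.Cyl

open Set Filter Topology MeasureTheory
open Pool.Agent.Helper749.PReg
open Pool.Agent.H230.C3.Geo Pool.Agent.H230.C3.Sol Pool.Agent.H230.C3.Int
open Pool.Agent.H230.C3.Grad
open Pool.Agent.Y131.PH (RE Mat ee ee_fst ee_snd int_zero int_zero' slice_smooth slice_smooth'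
  slice_compact slice_compact' slice_deriv slice_deriv' int_deriv integrable_mul_deriv
  integrable_mul continuous_fst_ee ee_symm_single)
open scoped ContDiff

variable {m n : ℕ} {μ : ℝ} (Pr : Prof μ)

/-- The weak equation for the gradient. -/
theorem weak_GG {φ : E → ℝ} (h1 : ContDiff ℝ ∞ φ) (h2 : HasCompactSupport φ) :
    ∫ z, ‖GG Pr z‖ ^ (μ - 1) * ∑ i, GG Pr z i * pd i φ z = 0 := by
  rw [← weak_FF Pr h1 h2]
  apply integral_congr_ae
  filter_upwards [ae_UU] with z hz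
  rw [Finset.mul_sum]
  apply Finset.sum_congr rfl
  intro j _
  rw [← flux_eq Pr hz j]
  ring

/-- the scalar function on `R^(3+m)` -/
noncomputable def uc (m : ℕ) (z : RE (3 + m)) : ℝ := uu Pr (ee 3 m z).1

/-- the map -/
noncomputable def hc (m : ℕ) (hn : 0 < n) (z : RE (3 + m)) : RE n :=
  EuclideanSpace.single ⟨0, hn⟩ (uc Pr m z)

/-- its gradient -/
noncomputable def Gc (m : ℕ) (hn : 0 < n) (z : RE (3 + m)) : Mat n (3 + m) :=
  WithLp.toLp 2 fun β => if β.1 = ⟨0, hn⟩ then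
    Fin.addCases (motive := fun _ => ℝ) (fun j => GG Pr (ee 3 m z).1 j) (fun _ => 0) β.2
    else 0

lemma hc_zero (hn : 0 < n) (z : RE (3 + m)) : hc Pr m hn z ⟨0, hn⟩ = uc Pr m z := by
  simp [hc]

lemma hc_ne (hn : 0 < n) (z : RE (3 + m)) {α : Fin n} (h : α ≠ ⟨0, hn⟩) :
    hc Pr m hn z α = 0 := by
  simp [hc, h]

lemma Gc_left (hn : 0 < n) (z : RE (3 + m)) (j : Fin 3) :
    Gc Pr m hn z (⟨0, hn⟩, Fin.castAdd m j) = GG Pr (ee 3 m z).1 j := by
  simp [Gc]

lemma Gc_right (hn : 0 < n) (z : RE (3 + m)) (j : Fin m) :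
    Gc Pr m hn z (⟨0, hn⟩, Fin.natAdd 3 j) = 0 := by
  simp [Gc]

lemma Gc_ne (hn : 0 < n) (z : RE (3 + m)) {α : Fin n} (h : α ≠ ⟨0, hn⟩)
    (i : Fin (3 + m)) : Gc Pr m hn z (α, i) = 0 := by
  simp [Gc, h]

lemma continuous_uc : Continuous (uc Pr m) := (continuous_uu Pr).comp continuous_fst_ee

lemma continuous_hc (hn : 0 < n) : Continuous (hc Pr m hn) := by
  rw [show (hc Pr m hn) = fun z => WithLp.toLp 2 (fun α => hc Pr m hn z α) from rfl]
  refine (PiLp.continuous_toLp 2 _).comp (continuous_pi fun α => ?_)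
  by_cases h : α = ⟨0, hn⟩
  · subst h
    simp only [hc_zero]
    exact continuous_uc Pr
  · simp only [hc_ne Pr hn _ h]
    exact continuous_const

lemma continuous_Gc (hn : 0 < n) : Continuous (Gc Pr m hn) := by
  rw [show (Gc Pr m hn) = fun z => WithLp.toLp 2 (fun β => Gc Pr m hn z β) from rfl]
  refine (PiLp.continuous_toLp 2 _).comp (continuous_pi fun β => ?_)
  obtain ⟨α, i⟩ := β
  by_cases h : α = ⟨0, hn⟩
  · subst h
    refine Fin.addCases (fun j => ?_) (fun j => ?_) i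
    · simp only [Gc_left]
      exact ((PiLp.continuous_apply 2 _ j).comp (continuous_GG Pr)).comp continuous_fst_ee
    · simp only [Gc_right]
      exact continuous_const
  · simp only [Gc_ne Pr hn _ h]
    exact continuous_const

lemma norm_Gc (hn : 0 < n) (z : RE (3 + m)) :
    ‖Gc Pr m hn z‖ = ‖GG Pr (ee 3 m z).1‖ := by
  have h : ‖Gc Pr m hn z‖ ^ 2 = ‖GG Pr (ee 3 m z).1‖ ^ 2 := by
    rw [EuclideanSpace.norm_sq_eq, EuclideanSpace.norm_sq_eq, Fintype.sum_prod_type,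
      Finset.sum_eq_single (⟨0, hn⟩ : Fin n)]
    · rw [Fin.sum_univ_add]
      simp only [Gc_left, Gc_right, norm_zero]
      simp
    · intro α _ h
      simp only [Gc_ne Pr hn z h, norm_zero]
      simp
    · simp
  exact (pow_left_inj₀ (norm_nonneg _) (norm_nonneg _) (by norm_num)).mp h

lemma Gc_congr (hn : 0 < n) {z w : RE (3 + m)}
    (h : (ee 3 m z).1 = (ee 3 m w).1) : Gc Pr m hn z = Gc Pr m hn w := by
  unfold Gc
  rw [h]

lemma Gc_smul (hn : 0 < n) {t : ℝ} (ht : 0 < t) (z : RE (3 + m)) :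
    Gc Pr m hn (t • z) = t ^ (Pr.k - 1) • Gc Pr m hn z := by
  ext ⟨α, i⟩
  rw [PiLp.smul_apply, smul_eq_mul]
  by_cases h : α = ⟨0, hn⟩
  · subst h
    refine Fin.addCases (fun j => ?_) (fun j => ?_) i
    · rw [Gc_left, Gc_left, map_smul, Prod.smul_fst, GG_smul Pr ht, PiLp.smul_apply, smul_eq_mul]
    · rw [Gc_right, Gc_right, mul_zero]
  · rw [Gc_ne Pr hn _ h, Gc_ne Pr hn _ h, mul_zero]

lemma uc_smul {t : ℝ} (ht : 0 < t) (z : RE (3 + m)) :
    uc Pr m (t • z) = t ^ Pr.k * uc Pr m z := by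
  unfold uc
  rw [map_smul, Prod.smul_fst, uu_smul Pr ht]

lemma Gc_axis (hn : 0 < n) {z : RE (3 + m)} (hz : (ee 3 m z).1 = 0) :
    Gc Pr m hn z = 0 := by
  rw [← norm_eq_zero, norm_Gc, hz, GG_zero, norm_zero]

/-- the weak gradient -/
theorem weak_grad (hn : 0 < n) (φ : RE (3 + m) → ℝ) (hφ : ContDiff ℝ ∞ φ)
    (hs : HasCompactSupport φ) (α : Fin n) (i : Fin (3 + m)) :
    ∫ x, hc Pr m hn x α * fderiv ℝ φ x (EuclideanSpace.single i 1) =
      - ∫ x, Gc Pr m hn x (α, i) * φ x := by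
  by_cases hα : α = ⟨0, hn⟩
  · subst hα
    have c1 : Continuous (fun x => hc Pr m hn x ⟨0, hn⟩) :=
      (PiLp.continuous_apply 2 _ _).comp (continuous_hc Pr hn)
    have c2 : Continuous (fun x => Gc Pr m hn x (⟨0, hn⟩, i)) :=
      (PiLp.continuous_apply 2 _ ((⟨0, hn⟩ : Fin n), i)).comp (continuous_Gc Pr hn)
    have i1 := integrable_mul_deriv c1 hφ hs (EuclideanSpace.single i 1)
    have i2 := integrable_mul c2 hφ hs
    have key : ∫ x, (hc Pr m hn x ⟨0, hn⟩ * fderiv ℝ φ x (EuclideanSpace.single i 1) +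
        Gc Pr m hn x (⟨0, hn⟩, i) * φ x) = 0 := by
      revert i1 i2 c2
      refine Fin.addCases (fun j => ?_) (fun j => ?_) i
      · intro _ _ _
        refine int_zero _ fun y => ?_
        have hψ1 := slice_smooth hφ y
        have hψ2 := slice_compact hs y
        have hpt : ∀ x : E, hc Pr m hn ((ee 3 m).symm (x, y)) ⟨0, hn⟩ *
            fderiv ℝ φ ((ee 3 m).symm (x, y)) (EuclideanSpace.single (Fin.castAdd m j) 1) +
            Gc Pr m hn ((ee 3 m).symm (x, y)) (⟨0, hn⟩, Fin.castAdd m j)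
              * φ ((ee 3 m).symm (x, y)) =
            uu Pr x * pd j (fun x => φ ((ee 3 m).symm (x, y))) x +
              GG Pr x j * φ ((ee 3 m).symm (x, y)) := by
          intro x
          rw [Gc_left, hc_zero, ← slice_deriv hφ y x j]
          unfold uc pd
          simp only [ContinuousLinearEquiv.apply_symm_apply]
        simp only [hpt]
        have hw := isWeakGrad_uu Pr (fun x => φ ((ee 3 m).symm (x, y)))
          ⟨hψ1, hψ2, subset_univ _⟩ j
        rw [Measure.restrict_univ] at hw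
        have j1 : Integrable (fun x => uu Pr x
            * pd j (fun x => φ ((ee 3 m).symm (x, y))) x) :=
          ((continuous_uu Pr).mul (continuous_pd hψ1 j)).integrable_of_hasCompactSupport
            (HasCompactSupport.mul_left (hasCompactSupport_pd hψ2 j))
        have j2 : Integrable (fun x => GG Pr x j * φ ((ee 3 m).symm (x, y))) :=
          (((PiLp.continuous_apply 2 _ j).comp (continuous_GG Pr)).mul
            hψ1.continuous).integrable_of_hasCompactSupport hψ2.mul_left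
        rw [integral_add j1 j2, hw]
        ring
      · intro _ _ _
        refine int_zero' _ fun x => ?_
        have hψ1 := slice_smooth' hφ x
        have hψ2 := slice_compact' hs x
        have hpt : ∀ y : RE m, hc Pr m hn ((ee 3 m).symm (x, y)) ⟨0, hn⟩ *
            fderiv ℝ φ ((ee 3 m).symm (x, y))
              (EuclideanSpace.single (Fin.natAdd 3 j) 1) +
            Gc Pr m hn ((ee 3 m).symm (x, y)) (⟨0, hn⟩, Fin.natAdd 3 j)
              * φ ((ee 3 m).symm (x, y)) =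
            uu Pr x * fderiv ℝ (fun y => φ ((ee 3 m).symm (x, y))) y
              (EuclideanSpace.single j 1) := by
          intro y
          rw [Gc_right, hc_zero, ← slice_deriv' hφ x y j]
          unfold uc
          simp only [ContinuousLinearEquiv.apply_symm_apply, zero_mul, add_zero]
        simp only [hpt]
        rw [integral_const_mul, int_deriv _ hψ1 hψ2 j, mul_zero]
    rw [integral_add i1 i2] at key
    linarith
  · simp only [hc_ne Pr hn _ hα, Gc_ne Pr hn _ hα, zero_mul]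
    simp

/-- the weak equation -/
theorem weak_eq (hn : 0 < n) {p : ℝ} (hp : μ = p - 1)
    (φ : RE (3 + m) → RE n) (hφ : ContDiff ℝ ∞ φ) (hs : HasCompactSupport φ) :
    ∫ x, ∑ α : Fin n, ∑ i : Fin (3 + m),
      (‖Gc Pr m hn x‖ ^ (p - 2) • Gc Pr m hn x) (α, i) *
        (fderiv ℝ φ x (EuclideanSpace.single i 1)) α = 0 := by
  have hφα : ContDiff ℝ ∞ (fun y => φ y ⟨0, hn⟩) := (contDiff_euclidean.1 hφ) _
  have hsα : HasCompactSupport (fun y => φ y ⟨0, hn⟩) :=
    hs.comp_left (g := fun z : RE n => z ⟨0, hn⟩) (by simp)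
  have hfd : ∀ (x : RE (3 + m)) (i : Fin (3 + m)),
      (fderiv ℝ φ x (EuclideanSpace.single i 1)) ⟨0, hn⟩ =
        fderiv ℝ (fun y => φ y ⟨0, hn⟩) x (EuclideanSpace.single i 1) := by
    intro x i
    have hφx : DifferentiableAt ℝ φ x := (hφ.differentiable (by simp)) x
    have h1 : HasFDerivAt (fun y => φ y ⟨0, hn⟩)
        ((EuclideanSpace.proj (⟨0, hn⟩ : Fin n) : RE n →L[ℝ] ℝ).comp (fderiv ℝ φ x)) x :=
      (EuclideanSpace.proj (⟨0, hn⟩ : Fin n) : RE n →L[ℝ] ℝ).hasFDerivAt.comp x hφx.hasFDerivAt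
    rw [h1.fderiv]
    rfl
  have hpe : μ - 1 = p - 2 := by
    rw [hp]
    ring
  refine int_zero _ fun y => ?_
  have hpt : ∀ x : E, (∑ α : Fin n, ∑ i : Fin (3 + m),
      (‖Gc Pr m hn ((ee 3 m).symm (x, y))‖ ^ (p - 2)
        • Gc Pr m hn ((ee 3 m).symm (x, y))) (α, i) *
        (fderiv ℝ φ ((ee 3 m).symm (x, y)) (EuclideanSpace.single i 1)) α) =
      ‖GG Pr x‖ ^ (μ - 1) * ∑ j, GG Pr x j
        * pd j (fun x => φ ((ee 3 m).symm (x, y)) ⟨0, hn⟩) x := by
    intro x
    rw [Finset.sum_eq_single (⟨0, hn⟩ : Fin n)]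
    · rw [Fin.sum_univ_add]
      have h0 : ∀ j : Fin m, (‖Gc Pr m hn ((ee 3 m).symm (x, y))‖ ^ (p - 2) •
          Gc Pr m hn ((ee 3 m).symm (x, y))) (⟨0, hn⟩, Fin.natAdd 3 j) *
          (fderiv ℝ φ ((ee 3 m).symm (x, y))
            (EuclideanSpace.single (Fin.natAdd 3 j) 1)) ⟨0, hn⟩ = 0 := by
        intro j
        rw [PiLp.smul_apply, Gc_right, smul_zero, zero_mul]
      rw [Finset.sum_congr rfl fun j _ => h0 j, Finset.sum_const_zero, add_zero, Finset.mul_sum]
      refine Finset.sum_congr rfl fun j _ => ?_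
      rw [PiLp.smul_apply, smul_eq_mul, Gc_left, norm_Gc, hfd, ← slice_deriv hφα y x j,
        ContinuousLinearEquiv.apply_symm_apply, hpe]
      unfold pd
      ring
    · intro α _ h
      refine Finset.sum_eq_zero fun i _ => ?_
      rw [PiLp.smul_apply, Gc_ne Pr hn _ h, smul_zero, zero_mul]
    · simp
  simp only [hpt]
  exact weak_GG Pr (slice_smooth hφα y) (slice_compact hsα y)

/-! ### the field `V(∇h)` -/

section V

variable {d : ℕ}

/-- `V(ξ) = |ξ|^((p-2)/2) ξ`. -/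
noncomputable def VV (p : ℝ) {n d : ℕ} (ξ : Mat n d) : Mat n d := ‖ξ‖ ^ ((p - 2) / 2) • ξ

lemma VV_zero (p : ℝ) : VV p (0 : Mat n d) = 0 := by
  unfold VV
  rw [smul_zero]

lemma norm_VV {p : ℝ} (hp : 0 < p) (ξ : Mat n d) : ‖VV p ξ‖ = ‖ξ‖ ^ (p / 2) := by
  by_cases h : ξ = 0
  · subst h
    rw [VV_zero, norm_zero, Real.zero_rpow (by positivity)]
  · have hG : 0 < ‖ξ‖ := norm_pos_iff.2 h
    unfold VV
    rw [norm_smul, Real.norm_of_nonneg (by positivity)]
    nth_rewrite 2 [← Real.rpow_one ‖ξ‖]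
    rw [← Real.rpow_add hG]
    congr 1
    ring

lemma continuous_VV {p : ℝ} (hp : 0 < p) : Continuous (VV p : Mat n d → Mat n d) := by
  rw [continuous_iff_continuousAt]
  intro ξ
  by_cases h : ξ = 0
  · subst h
    rw [ContinuousAt, VV_zero, tendsto_zero_iff_norm_tendsto_zero]
    simp only [norm_VV hp]
    have hc : Continuous (fun ξ : Mat n d => ‖ξ‖ ^ (p / 2)) :=
      continuous_norm.rpow_const (fun _ => Or.inr (by positivity))
    have := hc.tendsto 0
    rwa [norm_zero, Real.zero_rpow (by positivity)] at this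
  · unfold VV
    exact (continuous_norm.continuousAt.rpow_const (Or.inl (norm_ne_zero_iff.2 h))).smul
      continuousAt_id

lemma VV_smul {p s : ℝ} (hs : 0 < s) (ξ : Mat n d) : VV p (s • ξ) = s ^ (p / 2) • VV p ξ := by
  unfold VV
  rw [norm_smul, Real.norm_of_nonneg hs.le, Real.mul_rpow hs.le (norm_nonneg _), smul_smul,
    smul_smul]
  congr 1
  have : s ^ ((p - 2) / 2) * s = s ^ (p / 2) := by
    nth_rewrite 2 [← Real.rpow_one s]
    rw [← Real.rpow_add hs]
    congr 1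
    ring
  rw [← this]
  ring

end V

lemma VG_smul (hn : 0 < n) (p : ℝ) {t : ℝ} (ht : 0 < t) (z : RE (3 + m)) :
    VV p (Gc Pr m hn (t • z)) = t ^ ((Pr.k - 1) * p / 2) • VV p (Gc Pr m hn z) := by
  rw [Gc_smul Pr hn ht, VV_smul (Real.rpow_pos_of_pos ht _), ← Real.rpow_mul ht.le]
  congr 2
  ring

/-- a unit vector along which the gradient does not vanish -/
lemma exists_dir (m : ℕ) (hn : 0 < n) {p : ℝ} (hp : 0 < p) :
    ∃ (e : RE (3 + m)) (B : ℝ), ‖e‖ = 1 ∧ 0 < B ∧
      ∀ z : RE (3 + m), (ee 3 m z).1 = 0 → ∀ t : ℝ, 0 < t →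
        B * t ^ ((Pr.k - 1) * p / 2) ≤ ‖VV p (Gc Pr m hn (z + t • e))‖ := by
  set x0 : E := EuclideanSpace.single 1 1 with hx0
  have h01 : x0 1 = 1 := by
    rw [hx0]
    simp
  have hU : x0 ∈ (UU : Set E) := by
    change 0 < YY x0
    unfold YY
    rw [h01]
    have := sq_nonneg (x0 2)
    linarith
  set w : RE (3 + m) := (ee 3 m).symm (x0, 0) with hw
  have hw1 : (ee 3 m w).1 = x0 := by
    rw [hw, ContinuousLinearEquiv.apply_symm_apply]
  have hw0 : w ≠ 0 := by
    intro h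
    rw [h, map_zero, Prod.fst_zero] at hw1
    rw [← hw1] at h01
    simp at h01
  have hwn : 0 < ‖w‖ := norm_pos_iff.2 hw0
  have hGx : 0 < ‖GG Pr x0‖ := by
    rw [norm_GG Pr hU]
    exact mul_pos (Real.rpow_pos_of_pos (RR_pos hU) _) (Pr.ρpos _)
  refine ⟨‖w‖⁻¹ • w, (‖w‖⁻¹) ^ ((Pr.k - 1) * p / 2) * ‖GG Pr x0‖ ^ (p / 2),
    by rw [norm_smul, norm_inv, norm_norm, inv_mul_cancel₀ hwn.ne'], ?_, ?_⟩
  · have := Real.rpow_pos_of_pos (inv_pos.2 hwn) ((Pr.k - 1) * p / 2)
    have := Real.rpow_pos_of_pos hGx (p / 2)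
    positivity
  · intro z hz t ht
    have e1 : Gc Pr m hn (z + t • ‖w‖⁻¹ • w) = Gc Pr m hn ((t * ‖w‖⁻¹) • w) := by
      apply Gc_congr
      rw [map_add, Prod.fst_add, hz, zero_add, smul_smul]
    have hs : 0 < t * ‖w‖⁻¹ := mul_pos ht (inv_pos.2 hwn)
    rw [e1, VG_smul Pr hn p hs, norm_smul, Real.norm_of_nonneg (Real.rpow_pos_of_pos hs _).le,
      norm_VV hp, norm_Gc, hw1, Real.mul_rpow ht.le (inv_pos.2 hwn).le]
    apply le_of_eq
    ring

end Pool.Agent.H230.C3.Cyl
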