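import Pool.Agent.H230.C3.Ode

/-!
The barriers: explicit rational slopes for the sub- and the supersolution.
-/

set_option autoImplicit false
set_option maxRecDepth 10000

namespace Pool.Agent.H230.C3.Par

open Pool.Agent.H230.C3.Ode

/-- The subsolution, `p = 2 - e`, degree `2 + e / 4`. -/
lemma PQ_low {e T : ℝ} (h0 : 0 ≤ e) (h1 : e ≤ (7 / 20)) (hT : 0 ≤ T) :
    PQ (1 - e) ((1 + 1 / 4 * e) * (1 - e)) (2 - 3 / 5 * e) (5 + 2 / 5 * e) (0) (5 / 2 - 3 / 2 * e) (0) T ≤ 0 := by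
  have key : PQ (1 - e) ((1 + 1 / 4 * e) * (1 - e)) (2 - 3 / 5 * e) (5 + 2 / 5 * e) (0) (5 / 2 - 3 / 2 * e) (0) T = -(e * (((3 / 7) * ((7 / 20) - e) + (19 / 28) * e) +
      ((24000 / 343) * ((7 / 20) - e) ^ 3 + (102744 / 343) * e * ((7 / 20) - e) ^ 2 + (3208428 / 8575) * e ^ 2 * ((7 / 20) - e) + (12432237 / 85750) * e ^ 3) * T +
      ((111920000 / 16807) * ((7 / 20) - e) ^ 5 + (455490400 / 16807) * e * ((7 / 20) - e) ^ 4 + (711597672 / 16807) * e ^ 2 * ((7 / 20) - e) ^ 3 + (13032869522 / 420175) * e ^ 3 * ((7 / 20) - e) ^ 2 + (21271462043 / 2100875) * e ^ 4 * ((7 / 20) - e) + (42211830027 / 42017500) * e ^ 5) * T ^ 2 +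
      ((70400000 / 2401) * ((7 / 20) - e) ^ 5 + (39380000 / 343) * e * ((7 / 20) - e) ^ 4 + (407688144 / 2401) * e ^ 2 * ((7 / 20) - e) ^ 3 + (6827407744 / 60025) * e ^ 3 * ((7 / 20) - e) ^ 2 + (9217112211 / 300125) * e ^ 4 * ((7 / 20) - e) + (15347484433 / 12005000) * e ^ 5) * T ^ 3 +
      ((894150000 / 16807) * ((7 / 20) - e) ^ 5 + (4252812700 / 16807) * e * ((7 / 20) - e) ^ 4 + (8098774382 / 16807) * e ^ 2 * ((7 / 20) - e) ^ 3 + (385985110979 / 840350) * e ^ 3 * ((7 / 20) - e) ^ 2 + (7366595012463 / 33614000) * e ^ 4 * ((7 / 20) - e) + (28148824654227 / 672280000) * e ^ 5) * T ^ 4 +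
      ((632000000 / 16807) * ((7 / 20) - e) ^ 5 + (3966792000 / 16807) * e * ((7 / 20) - e) ^ 4 + (9463410928 / 16807) * e ^ 2 * ((7 / 20) - e) ^ 3 + (272747335668 / 420175) * e ^ 3 * ((7 / 20) - e) ^ 2 + (767112700827 / 2100875) * e ^ 4 * ((7 / 20) - e) + (1694536859709 / 21008750) * e ^ 5) * T ^ 5 +
      ((20000000 / 2401) * ((7 / 20) - e) ^ 5 + (132680000 / 2401) * e * ((7 / 20) - e) ^ 4 + (334071040 / 2401) * e ^ 2 * ((7 / 20) - e) ^ 3 + (10156631776 / 60025) * e ^ 3 * ((7 / 20) - e) ^ 2 + (4304281232 / 42875) * e ^ 4 * ((7 / 20) - e) + (35103458324 / 1500625) * e ^ 5) * T ^ 6)) := by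
    unfold PQ Lp Np Mp
    ring
  have hs : 0 ≤ (7 / 20) - e := by linarith
  rw [key]
  generalize (7 / 20) - e = s at hs
  rw [neg_nonpos]
  positivity

/-- The supersolution, `p = 2 - e`, for `e ≤ 3 / 10`. -/
lemma PQ_up {e T : ℝ} (h0 : 0 ≤ e) (h1 : e ≤ (3 / 10)) (hT : 0 ≤ T) :
    0 ≤ PQ (1 - e) (1 - 1 / 2 * e - 3 / 10 * e ^ 2) (2 - 3 / 5 * e) (11 - 12 * e) (15 + 7 / 2 * e) (11 / 2 - 13 / 2 * e) (15 / 2 - 3 * e) T := by
  have key : PQ (1 - e) (1 - 1 / 2 * e - 3 / 10 * e ^ 2) (2 - 3 / 5 * e) (11 - 12 * e) (15 + 7 / 2 * e) (11 / 2 - 13 / 2 * e) (15 / 2 - 3 * e) T = (e * (((1 / 3) * ((3 / 10) - e) + (1 / 30) * e) +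
      ((500 / 3) * ((3 / 10) - e) ^ 3 + (3382 / 9) * e * ((3 / 10) - e) ^ 2 + (65582 / 225) * e ^ 2 * ((3 / 10) - e) + (92174 / 1125) * e ^ 3) * T +
      ((5560000 / 243) * ((3 / 10) - e) ^ 5 + (21608900 / 243) * e * ((3 / 10) - e) ^ 4 + (32397064 / 243) * e ^ 2 * ((3 / 10) - e) ^ 3 + (571176913 / 6075) * e ^ 3 * ((3 / 10) - e) ^ 2 + (892508212 / 30375) * e ^ 4 * ((3 / 10) - e) + (4007148301 / 1518750) * e ^ 5) * T ^ 2 +
      ((10457500 / 81) * ((3 / 10) - e) ^ 5 + (36301850 / 81) * e * ((3 / 10) - e) ^ 4 + (48195043 / 81) * e ^ 2 * ((3 / 10) - e) ^ 3 + (302957707 / 810) * e ^ 3 * ((3 / 10) - e) ^ 2 + (1131738193 / 10125) * e ^ 4 * ((3 / 10) - e) + (2769591739 / 202500) * e ^ 5) * T ^ 3 +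
      ((30158125 / 81) * ((3 / 10) - e) ^ 5 + (2297375 / 2) * e * ((3 / 10) - e) ^ 4 + (233481805 / 162) * e ^ 2 * ((3 / 10) - e) ^ 3 + (1575425267 / 1620) * e ^ 3 * ((3 / 10) - e) ^ 2 + (4008106123 / 10800) * e ^ 4 * ((3 / 10) - e) + (101275203619 / 1620000) * e ^ 5) * T ^ 4 +
      ((133161250 / 243) * ((3 / 10) - e) ^ 5 + (377534375 / 243) * e * ((3 / 10) - e) ^ 4 + (1018988975 / 486) * e ^ 2 * ((3 / 10) - e) ^ 3 + (1781620711 / 972) * e ^ 3 * ((3 / 10) - e) ^ 2 + (23926743809 / 24300) * e ^ 4 * ((3 / 10) - e) + (14377687081 / 60750) * e ^ 5) * T ^ 5 +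
      ((153800000 / 243) * ((3 / 10) - e) ^ 5 + (534499750 / 243) * e * ((3 / 10) - e) ^ 4 + (1707679225 / 486) * e ^ 2 * ((3 / 10) - e) ^ 3 + (1621629709 / 486) * e ^ 3 * ((3 / 10) - e) ^ 2 + (17125976317 / 9720) * e ^ 4 * ((3 / 10) - e) + (88762668521 / 243000) * e ^ 5) * T ^ 6 +
      ((167843750 / 81) * ((3 / 10) - e) ^ 5 + (660989375 / 81) * e * ((3 / 10) - e) ^ 4 + (222224375 / 18) * e ^ 2 * ((3 / 10) - e) ^ 3 + (2856501845 / 324) * e ^ 3 * ((3 / 10) - e) ^ 2 + (9596862683 / 3240) * e ^ 4 * ((3 / 10) - e) + (4437089033 / 10800) * e ^ 5) * T ^ 7 +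
      ((444671875 / 81) * ((3 / 10) - e) ^ 5 + (378113125 / 18) * e * ((3 / 10) - e) ^ 4 + (2527857500 / 81) * e ^ 2 * ((3 / 10) - e) ^ 3 + (3566057585 / 162) * e ^ 3 * ((3 / 10) - e) ^ 2 + (1486988933 / 216) * e ^ 4 * ((3 / 10) - e) + (9073846759 / 16200) * e ^ 5) * T ^ 8 +
      ((175625000 / 27) * ((3 / 10) - e) ^ 5 + (691118750 / 27) * e * ((3 / 10) - e) ^ 4 + (1050674000 / 27) * e ^ 2 * ((3 / 10) - e) ^ 3 + (772822475 / 27) * e ^ 3 * ((3 / 10) - e) ^ 2 + (1122790493 / 108) * e ^ 4 * ((3 / 10) - e) + (43070282 / 27) * e ^ 5) * T ^ 9 +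
      ((25000000 / 9) * ((3 / 10) - e) ^ 5 + (106812500 / 9) * e * ((3 / 10) - e) ^ 4 + (171514375 / 9) * e ^ 2 * ((3 / 10) - e) ^ 3 + (492336425 / 36) * e ^ 3 * ((3 / 10) - e) ^ 2 + (541594945 / 144) * e ^ 4 * ((3 / 10) - e) + (74727623 / 1440) * e ^ 5) * T ^ 10)) := by
    unfold PQ Lp Np Mp
    ring
  have hs : 0 ≤ (3 / 10) - e := by linarith
  rw [key]
  generalize (3 / 10) - e = s at hs
  positivity

end Pool.Agent.H230.C3.Par
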