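import Pool.Agent.H230.C3.Sol
import Pool.Agent.H230.C3.Par
import Pool.Agent.H230.C3.Par2

/-!
Existence of the profile with a degree below `1 + 2 / p`, for `33 / 20 ≤ p < 2`.
-/

set_option autoImplicit false

namespace Pool.Agent.H230.C3.Ex

open Pool.Agent.H230.C3.Ode Pool.Agent.H230.C3.Sol Pool.Agent.H230.C3.Par

theorem exists_final {p : ℝ} (hp1 : 33 / 20 ≤ p) (hp2 : p < 2) :
    ∃ Pr : Prof (p - 1), 2 + (2 - p) / 4 ≤ Pr.k ∧ Pr.k < 1 + 2 / p := by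
  obtain ⟨e, rfl⟩ : ∃ e, p = 2 - e := ⟨2 - p, by ring⟩
  have he0 : 0 < e := by linarith
  have he1 : e ≤ 7 / 20 := by linarith
  have hμ : (2 - e - 1 : ℝ) = 1 - e := by ring
  rw [hμ]
  have hμ0 : 0 < 1 - e := by linarith
  have hp0 : 0 < 2 - e := by linarith
  have hlow : ∀ T, 0 ≤ T → PQ (1 - e) ((2 + (2 - (2 - e)) / 4 - 1) * (1 - e))
      (2 - 3 / 5 * e) (5 + 2 / 5 * e) 0 (5 / 2 - 3 / 2 * e) 0 T ≤ 0 := by
    intro T hT
    have h := PQ_low he0.le he1 hT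
    rwa [show (1 + 1 / 4 * e) * (1 - e) = (2 + (2 - (2 - e)) / 4 - 1) * (1 - e) by ring] at h
  -- a common estimate
  have main : ∀ κ c : ℝ, κ = 1 - 1 / 2 * e - c * e ^ 2 → 3 / 10 ≤ c → c ≤ 31 / 100 →
      1 / 2 < c * (2 - e) →
      2 + (2 - (2 - e)) / 4 ≤ 1 + κ / (1 - e) ∧ 1 + κ / (1 - e) ≤ 5 / 2 ∧
        1 + κ / (1 - e) < 1 + 2 / (2 - e) ∧ (1 + κ / (1 - e) - 1) * (1 - e) = κ := by
    intro κ c hκ hc1 hc2 hc3
    refine ⟨?_, ?_, ?_, ?_⟩
    · have : 1 + e / 4 ≤ κ / (1 - e) := by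
        rw [le_div_iff₀ hμ0, hκ]
        nlinarith
      linarith
    · have : κ / (1 - e) ≤ 3 / 2 := by
        rw [div_le_iff₀ hμ0, hκ]
        nlinarith
      linarith
    · have : κ / (1 - e) < 2 / (2 - e) := by
        rw [div_lt_div_iff₀ hμ0 hp0, hκ]
        have h2 : 0 < e ^ 2 * (c * (2 - e) - 1 / 2) := by
          apply mul_pos (by positivity)
          linarith
        nlinarith
      linarith
    · field_simp
      ring
  rcases le_total e (3 / 10) with h3 | h3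
  · obtain ⟨a1, a2, a3, a4⟩ := main (1 - 1 / 2 * e - 3 / 10 * e ^ 2) (3 / 10) rfl (by norm_num)
      (by norm_num) (by linarith)
    obtain ⟨Pr, b1, b2⟩ := exists_prof (μ := 1 - e) (k1 := 2 + (2 - (2 - e)) / 4)
      (k2 := 1 + (1 - 1 / 2 * e - 3 / 10 * e ^ 2) / (1 - e)) hμ0 (by linarith) (by linarith)
      a1 a2 (by linarith) le_rfl hlow (n0 := 2 - 3 / 5 * e) (n1 := 11 - 12 * e)
      (n2 := 15 + 7 / 2 * e) (m1 := 11 / 2 - 13 / 2 * e) (m2 := 15 / 2 - 3 * e)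
      (by linarith) (by linarith) (fun T hT => by
        rw [a4]
        exact PQ_up he0.le h3 hT) (by linarith) (by linarith) (by linarith)
    exact ⟨Pr, b1, lt_of_le_of_lt b2 a3⟩
  · obtain ⟨x, rfl⟩ : ∃ x, e = 3 / 10 + x := ⟨e - 3 / 10, by ring⟩
    have hx0 : 0 ≤ x := by linarith
    have hx1 : x ≤ 1 / 20 := by linarith
    obtain ⟨a1, a2, a3, a4⟩ := main (1 - 1 / 2 * (3 / 10 + x) - 38 / 125 * (3 / 10 + x) ^ 2)
      (38 / 125) rfl (by norm_num) (by norm_num) (by linarith)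
    obtain ⟨Pr, b1, b2⟩ := exists_prof (μ := 1 - (3 / 10 + x))
      (k1 := 2 + (2 - (2 - (3 / 10 + x))) / 4)
      (k2 := 1 + (1 - 1 / 2 * (3 / 10 + x) - 38 / 125 * (3 / 10 + x) ^ 2) / (1 - (3 / 10 + x)))
      hμ0 (by linarith) (by linarith)
      a1 a2 (by linarith) le_rfl hlow (n0 := 91 / 50 - 33 / 50 * x) (n1 := 31 / 4 - 12 * x)
      (n2 := 77 / 5 + 17 / 5 * x) (m1 := 37 / 10 - 7 * x) (m2 := 157 / 25 - 3 * x)
      (by linarith) (by linarith) (fun T hT => by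
        rw [a4]
        exact PQ_up2 hx0 hx1 hT) (by linarith) (by linarith) (by linarith)
    exact ⟨Pr, b1, lt_of_le_of_lt b2 a3⟩

end Pool.Agent.H230.C3.Ex
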