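import Pool.Graph.R_seed8.Helper749.ConeOde

/-!
The slope equation of the homogeneous axially symmetric `p`-harmonic functions on `R x R^2`.

For `u = r^k V(t)`, `x = ρ sinh t`, `r = ρ cosh t` (`x` the coordinate along the axis of symmetry,
`ρ` the distance from it) let `P` be the angle from the radial direction to the gradient.
-/

set_option autoImplicit false

namespace Pool.Agent.H230.C3.Ode

open Set Filter Topology NNReal Metric
open Pool.Agent.Helper749.ConeOde (exists_global comparison DD DD_lower DD_upper DD_pos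
  abs_tanh_le sc_bound hasDerivAt_DD)

/-- The numerator. -/
noncomputable def NN (μ k t x : ℝ) : ℝ :=
  Real.tanh t * (Real.sin x * Real.cos x)
    - (μ * k + (2 - μ) * Real.cos x ^ 2) / Real.cosh t

/-- The field. -/
noncomputable def HH (μ k t x : ℝ) : ℝ := NN μ k t x / DD μ x

lemma cosh_one (t : ℝ) {a c : ℝ} (ha : |a| ≤ c) : |a / Real.cosh t| ≤ c := by
  have hc := Real.one_le_cosh t
  rw [abs_div, abs_of_pos (by linarith : 0 < Real.cosh t), div_le_iff₀ (by linarith)]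
  have : 0 ≤ |a| := abs_nonneg a
  nlinarith

lemma NN_bound {μ k : ℝ} (h0 : 0 < μ) (h1 : μ < 1) (hk0 : 0 ≤ k) (hk3 : k ≤ 3)
    (t x : ℝ) : |NN μ k t x| ≤ 6 := by
  unfold NN
  have a1 : |Real.tanh t * (Real.sin x * Real.cos x)| ≤ 1 := by
    rw [abs_mul]
    have h2 := abs_tanh_le t
    have h3 := sc_bound x
    have h4 : |Real.tanh t| * |Real.sin x * Real.cos x| ≤ 1 * (1 / 2) :=
      mul_le_mul h2 h3 (abs_nonneg _) (by norm_num)
    linarith
  have a2 : |(μ * k + (2 - μ) * Real.cos x ^ 2) / Real.cosh t| ≤ 5 := by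
    apply cosh_one
    have hcs : Real.cos x ^ 2 ≤ 1 := Real.cos_sq_le_one x
    have hcs0 : 0 ≤ Real.cos x ^ 2 := sq_nonneg _
    have hμk0 : 0 ≤ μ * k := mul_nonneg h0.le hk0
    have hμk : μ * k ≤ 3 := by nlinarith
    have h5 : 0 ≤ (2 - μ) * Real.cos x ^ 2 := mul_nonneg (by linarith) hcs0
    have h6 : (2 - μ) * Real.cos x ^ 2 ≤ (2 - μ) * 1 :=
      mul_le_mul_of_nonneg_left hcs (by linarith)
    rw [abs_le]
    constructor <;> linarith
  refine (abs_sub _ _).trans ?_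
  linarith

lemma HH_bound {μ k : ℝ} (h0 : 0 < μ) (h1 : μ < 1) (hk0 : 0 ≤ k) (hk3 : k ≤ 3)
    (t x : ℝ) : |HH μ k t x| ≤ 6 / μ := by
  unfold HH
  rw [abs_div, abs_of_pos (DD_pos h0 h1 x)]
  exact div_le_div₀ (by linarith) (NN_bound h0 h1 hk0 hk3 t x) h0 (DD_lower h1 x)

lemma HH_diff {μ k k' : ℝ} (h0 : 0 < μ) (h1 : μ < 1) (t x : ℝ) :
    |HH μ k t x - HH μ k' t x| ≤ |k - k'| := by
  have hD := DD_pos h0 h1 x
  have hc := Real.one_le_cosh t
  have e : HH μ k t x - HH μ k' t x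
      = -(k - k') * (μ / DD μ x) * (1 / Real.cosh t) := by
    unfold HH NN
    field_simp
    ring
  rw [e, abs_mul, abs_mul, abs_neg]
  have b1 : |μ / DD μ x| ≤ 1 := by
    rw [abs_div, abs_of_pos h0, abs_of_pos hD, div_le_one hD]
    exact DD_lower h1 x
  have b2 : |1 / Real.cosh t| ≤ 1 := cosh_one t (by norm_num)
  calc |k - k'| * |μ / DD μ x| * |1 / Real.cosh t| ≤ |k - k'| * 1 * 1 := by gcongr
    _ = |k - k'| := by ring

lemma hasDerivAt_NN (μ k t x : ℝ) :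
    HasDerivAt (NN μ k t) (Real.tanh t * (Real.cos x ^ 2 - Real.sin x ^ 2)
      - (-2 * (2 - μ) * (Real.sin x * Real.cos x)) / Real.cosh t) x := by
  have h1 := ((Real.hasDerivAt_sin x).mul (Real.hasDerivAt_cos x)).const_mul (Real.tanh t)
  have h2 := ((((Real.hasDerivAt_cos x).pow 2).const_mul (2 - μ)).const_add
    (μ * k)).div_const (Real.cosh t)
  refine (h1.sub h2).congr_deriv ?_
  simp
  ring

lemma HH_lipschitz {μ k : ℝ} (h0 : 0 < μ) (h1 : μ < 1) (hk0 : 0 ≤ k) (hk3 : k ≤ 3)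
    (t : ℝ) : LipschitzWith (Real.toNNReal (20 / μ ^ 2)) (HH μ k t) := by
  have hd : ∀ x, HasDerivAt (HH μ k t)
      (((Real.tanh t * (Real.cos x ^ 2 - Real.sin x ^ 2)
      - (-2 * (2 - μ) * (Real.sin x * Real.cos x)) / Real.cosh t) * DD μ x
        - NN μ k t x * (-2 * (1 - μ) * (Real.sin x * Real.cos x))) / (DD μ x) ^ 2) x :=
    fun x => (hasDerivAt_NN μ k t x).div (hasDerivAt_DD μ x) (DD_pos h0 h1 x).ne'
  apply lipschitzWith_of_nnnorm_deriv_le (fun x => (hd x).differentiableAt)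
  intro x
  rw [(hd x).deriv]
  rw [← NNReal.coe_le_coe, coe_nnnorm, Real.norm_eq_abs, Real.coe_toNNReal _ (by positivity)]
  have hD := DD_pos h0 h1 x
  have hDl := DD_lower h1 x
  have hDu := DD_upper h1 x
  rw [abs_div, abs_of_pos (by positivity : 0 < (DD μ x) ^ 2)]
  apply div_le_div₀ (by linarith) _ (by positivity) (pow_le_pow_left₀ h0.le hDl 2)
  have hsc := sc_bound x
  have a1 : |Real.tanh t * (Real.cos x ^ 2 - Real.sin x ^ 2)| ≤ 1 := by
    rw [abs_mul]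
    have h3 := abs_tanh_le t
    have h4 : |Real.cos x ^ 2 - Real.sin x ^ 2| ≤ 1 := by
      rw [abs_le]
      constructor <;>
        nlinarith [Real.sin_sq_add_cos_sq x, sq_nonneg (Real.sin x), sq_nonneg (Real.cos x)]
    have h5 : |Real.tanh t| * |Real.cos x ^ 2 - Real.sin x ^ 2| ≤ 1 * 1 :=
      mul_le_mul h3 h4 (abs_nonneg _) (by norm_num)
    linarith
  have a2 : |(-2 * (2 - μ) * (Real.sin x * Real.cos x)) / Real.cosh t| ≤ 2 := by
    apply cosh_one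
    rw [abs_mul, abs_mul]
    have h6 : |2 - μ| ≤ 2 := by rw [abs_of_pos (by linarith)]; linarith
    have h2 : |(-2 : ℝ)| = 2 := by norm_num
    rw [h2]
    have h7 : |2 - μ| * |Real.sin x * Real.cos x| ≤ 2 * (1 / 2) :=
      mul_le_mul h6 hsc (abs_nonneg _) (by linarith)
    linarith
  have a3 : |Real.tanh t * (Real.cos x ^ 2 - Real.sin x ^ 2)
      - (-2 * (2 - μ) * (Real.sin x * Real.cos x)) / Real.cosh t| ≤ 3 :=
    (abs_sub _ _).trans (by linarith)
  have a4 : |(-2 * (1 - μ) * (Real.sin x * Real.cos x))| ≤ 1 := by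
    rw [abs_mul, abs_mul]
    have : |1 - μ| ≤ 1 := by rw [abs_of_pos (by linarith)]; linarith
    have h2 : |(-2 : ℝ)| = 2 := by norm_num
    rw [h2]
    nlinarith [abs_nonneg (Real.sin x * Real.cos x), abs_nonneg (1 - μ)]
  have a5 := NN_bound h0 h1 hk0 hk3 t x
  have a6 : |(Real.tanh t * (Real.cos x ^ 2 - Real.sin x ^ 2)
      - (-2 * (2 - μ) * (Real.sin x * Real.cos x)) / Real.cosh t) * DD μ x| ≤ 3 * 1 := by
    rw [abs_mul, abs_of_pos hD]
    exact mul_le_mul a3 hDu hD.le (by norm_num)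
  have a7 : |NN μ k t x * (-2 * (1 - μ) * (Real.sin x * Real.cos x))| ≤ 6 * 1 := by
    rw [abs_mul]
    exact mul_le_mul a5 a4 (abs_nonneg _) (by norm_num)
  exact (abs_sub _ _).trans (by linarith)

lemma HH_continuous (μ k x : ℝ) : Continuous fun t => HH μ k t x := by
  unfold HH NN
  have h1 : Continuous Real.tanh := by
    have : Real.tanh = fun t => Real.sinh t / Real.cosh t := by
      ext t
      exact Real.tanh_eq_sinh_div_cosh t
    rw [this]
    exact Real.continuous_sinh.div Real.continuous_cosh (fun t => (Real.cosh_pos t).ne')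
  refine Continuous.div_const ?_ _
  refine (h1.mul continuous_const).sub ?_
  exact continuous_const.div Real.continuous_cosh (fun t => (Real.cosh_pos t).ne')

/-! ### barriers -/

/-- The denominator in the slope variable. -/
def Dq (μ τ g : ℝ) : ℝ := (1 - τ * g) ^ 2 + μ * (τ + g) ^ 2

lemma Dq_pos {μ : ℝ} (h0 : 0 < μ) (τ g : ℝ) : 0 < Dq μ τ g := by
  unfold Dq
  have e : (1 - τ * g) ^ 2 + (τ + g) ^ 2 = (1 + τ ^ 2) * (1 + g ^ 2) := by ring
  have h1 : 0 < (1 - τ * g) ^ 2 + (τ + g) ^ 2 := by rw [e]; positivity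
  by_cases h : (τ + g) = 0
  · rw [h] at h1 ⊢
    simpa using h1
  · have : 0 < (τ + g) ^ 2 := by positivity
    have := mul_pos h0 this
    have := sq_nonneg (1 - τ * g)
    linarith

/-- The field along a curve `π - arctan (sinh t) - arctan g`. -/
lemma HH_arc {μ k : ℝ} (h0 : 0 < μ) (t g g' : ℝ) :
    HH μ k t (Real.pi - Real.arctan (Real.sinh t) - Real.arctan g)
      - (-(1 / Real.cosh t) - g' * Real.cosh t / (1 + g ^ 2))
      = - (Real.cosh t * ((1 + g ^ 2) * (1 + (k - 1) * μ - Real.sinh t * g + (k - 1) * μ * g ^ 2)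
          - g' * Dq μ (Real.sinh t) g) / ((1 + g ^ 2) * Dq μ (Real.sinh t) g)) := by
  set τ : ℝ := Real.sinh t with hτ
  set c : ℝ := Real.cosh t with hc
  have hcpos : 0 < c := Real.cosh_pos t
  have hc2 : c ^ 2 = 1 + τ ^ 2 := by rw [hc, hτ, Real.cosh_sq]; ring
  have hcs : Real.sqrt (1 + τ ^ 2) = c := by rw [← hc2, Real.sqrt_sq hcpos.le]
  set G : ℝ := Real.sqrt (1 + g ^ 2) with hG
  have hGpos : 0 < G := Real.sqrt_pos.mpr (by positivity)
  have hG2 : G ^ 2 = 1 + g ^ 2 := Real.sq_sqrt (by positivity)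
  have s1 : Real.sin (Real.arctan τ) = τ / c := by rw [Real.sin_arctan, hcs]
  have c1 : Real.cos (Real.arctan τ) = 1 / c := by rw [Real.cos_arctan, hcs]
  have s2 : Real.sin (Real.arctan g) = g / G := by rw [Real.sin_arctan]
  have c2 : Real.cos (Real.arctan g) = 1 / G := by rw [Real.cos_arctan]
  have hsin : Real.sin (Real.pi - Real.arctan τ - Real.arctan g) = (τ + g) / (c * G) := by
    rw [show Real.pi - Real.arctan τ - Real.arctan g
      = Real.pi - (Real.arctan τ + Real.arctan g) by ring, Real.sin_pi_sub, Real.sin_add,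
      s1, c1, s2, c2]
    field_simp
  have hcos : Real.cos (Real.pi - Real.arctan τ - Real.arctan g) = - ((1 - τ * g) / (c * G)) := by
    rw [show Real.pi - Real.arctan τ - Real.arctan g
      = Real.pi - (Real.arctan τ + Real.arctan g) by ring, Real.cos_pi_sub, Real.cos_add,
      s1, c1, s2, c2]
    field_simp
  have hD := Dq_pos h0 τ g
  have hDD : DD μ (Real.pi - Real.arctan τ - Real.arctan g) = Dq μ τ g / (c * G) ^ 2 := by
    unfold DD Dq
    rw [hsin, hcos]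
    field_simp
  have hT : Real.tanh t = τ / c := by rw [Real.tanh_eq_sinh_div_cosh]
  have hNN : NN μ k t (Real.pi - Real.arctan τ - Real.arctan g)
      = - (τ * (τ + g) * (1 - τ * g) + μ * k * (c * G) ^ 2 + (2 - μ) * (1 - τ * g) ^ 2)
        / (c * (c * G) ^ 2) := by
    unfold NN
    rw [hsin, hcos, hT]
    field_simp
    ring
  have hH : HH μ k t (Real.pi - Real.arctan τ - Real.arctan g)
      = - (τ * (τ + g) * (1 - τ * g) + μ * k * (c * G) ^ 2 + (2 - μ) * (1 - τ * g) ^ 2)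
        / (c * Dq μ τ g) := by
    unfold HH
    rw [hNN, hDD]
    field_simp
  have key : (τ * (τ + g) * (1 - τ * g) + μ * k * (c * G) ^ 2 + (2 - μ) * (1 - τ * g) ^ 2)
      = Dq μ τ g + c ^ 2 * (1 + (k - 1) * μ - τ * g + (k - 1) * μ * g ^ 2) := by
    rw [mul_pow, hc2, hG2]
    unfold Dq
    ring
  rw [hH, key, ← hG2]
  have hG2' : G ^ 2 ≠ 0 := by positivity
  field_simp
  ring

/-- numerator polynomial of the slope of the barrier -/
def Np (n0 n1 n2 T : ℝ) : ℝ := n0 + n1 * T + n2 * T ^ 2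

/-- denominator polynomial of the slope of the barrier -/
def Mp (m1 m2 T : ℝ) : ℝ := 1 + m1 * T + m2 * T ^ 2

/-- numerator of the derivative of the slope -/
def Lp (n0 n1 n2 m1 m2 T : ℝ) : ℝ :=
  Np n0 n1 n2 T * Mp m1 m2 T + 2 * T * ((n1 + 2 * n2 * T) * Mp m1 m2 T
    - Np n0 n1 n2 T * (m1 + 2 * m2 * T))

/-- The comparison polynomial, `κ = (k - 1) μ`. -/
def PQ (μ κ n0 n1 n2 m1 m2 T : ℝ) : ℝ :=
  ((Mp m1 m2 T) ^ 2 + T * (Np n0 n1 n2 T) ^ 2)
      * ((1 + κ) * (Mp m1 m2 T) ^ 2 - T * Np n0 n1 n2 T * Mp m1 m2 T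
        + κ * T * (Np n0 n1 n2 T) ^ 2)
    - Lp n0 n1 n2 m1 m2 T * ((Mp m1 m2 T - T * Np n0 n1 n2 T) ^ 2
      + μ * T * (Mp m1 m2 T + Np n0 n1 n2 T) ^ 2)

/-- The slope of the barrier. -/
noncomputable def gg (n0 n1 n2 m1 m2 τ : ℝ) : ℝ :=
  τ * Np n0 n1 n2 (τ ^ 2) / Mp m1 m2 (τ ^ 2)

/-- The barrier. -/
noncomputable def barq (n0 n1 n2 m1 m2 t : ℝ) : ℝ :=
  Real.pi - Real.arctan (Real.sinh t) - Real.arctan (gg n0 n1 n2 m1 m2 (Real.sinh t))

/-- Its derivative. -/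
noncomputable def barq' (n0 n1 n2 m1 m2 t : ℝ) : ℝ :=
  -(1 / Real.cosh t) - (Lp n0 n1 n2 m1 m2 (Real.sinh t ^ 2) / Mp m1 m2 (Real.sinh t ^ 2) ^ 2)
    * Real.cosh t / (1 + gg n0 n1 n2 m1 m2 (Real.sinh t) ^ 2)

variable {n0 n1 n2 m1 m2 : ℝ}

lemma Mp_pos (h1 : 0 ≤ m1) (h2 : 0 ≤ m2) (τ : ℝ) : 0 < Mp m1 m2 (τ ^ 2) := by
  unfold Mp
  positivity

lemma hasDerivAt_gg (h1 : 0 ≤ m1) (h2 : 0 ≤ m2) (τ : ℝ) :
    HasDerivAt (gg n0 n1 n2 m1 m2)
      (Lp n0 n1 n2 m1 m2 (τ ^ 2) / Mp m1 m2 (τ ^ 2) ^ 2) τ := by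
  have hM := Mp_pos h1 h2 τ
  have d2 : HasDerivAt (fun τ : ℝ => τ ^ 2) (2 * τ) τ := by
    simpa using hasDerivAt_pow 2 τ
  have dN : HasDerivAt (fun τ : ℝ => Np n0 n1 n2 (τ ^ 2))
      ((n1 + 2 * n2 * τ ^ 2) * (2 * τ)) τ := by
    have h := ((d2.const_mul n1).const_add n0).add ((d2.pow 2).const_mul n2)
    refine h.congr_deriv ?_
    simp
    ring
  have dM : HasDerivAt (fun τ : ℝ => Mp m1 m2 (τ ^ 2))
      ((m1 + 2 * m2 * τ ^ 2) * (2 * τ)) τ := by
    have h := ((d2.const_mul m1).const_add 1).add ((d2.pow 2).const_mul m2)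
    refine h.congr_deriv ?_
    simp
    ring
  refine (((hasDerivAt_id τ).mul dN).div dM hM.ne').congr_deriv ?_
  unfold Lp
  simp only [id, Pi.mul_apply]
  congr 1
  ring

lemma hasDerivAt_barq (h1 : 0 ≤ m1) (h2 : 0 ≤ m2) (t : ℝ) :
    HasDerivAt (barq n0 n1 n2 m1 m2) (barq' n0 n1 n2 m1 m2 t) t := by
  have hs := Real.hasDerivAt_sinh t
  have a1 := hs.arctan
  have a2 := ((hasDerivAt_gg (n0 := n0) (n1 := n1) (n2 := n2) h1 h2 (Real.sinh t)).comp t hs).arctan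
  have h := (a1.const_sub Real.pi).sub a2
  refine h.congr_deriv ?_
  have hc := Real.cosh_pos t
  have hc2 : 1 + Real.sinh t ^ 2 = Real.cosh t ^ 2 := by rw [Real.cosh_sq]; ring
  unfold barq'
  simp only [Function.comp]
  rw [hc2]
  field_simp

lemma barq_zero : barq n0 n1 n2 m1 m2 0 = Real.pi := by
  unfold barq gg
  simp

lemma barq_pos (t : ℝ) : 0 < barq n0 n1 n2 m1 m2 t := by
  unfold barq
  have h1 := Real.arctan_lt_pi_div_two (Real.sinh t)
  have h2 := Real.arctan_lt_pi_div_two (gg n0 n1 n2 m1 m2 (Real.sinh t))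
  linarith

lemma HH_barq {μ k : ℝ} (h0 : 0 < μ) (h1 : 0 ≤ m1) (h2 : 0 ≤ m2) (t : ℝ) :
    HH μ k t (barq n0 n1 n2 m1 m2 t) - barq' n0 n1 n2 m1 m2 t
      = - (Real.cosh t * PQ μ ((k - 1) * μ) n0 n1 n2 m1 m2 (Real.sinh t ^ 2)
        / (Mp m1 m2 (Real.sinh t ^ 2) ^ 4 * ((1 + gg n0 n1 n2 m1 m2 (Real.sinh t) ^ 2)
          * Dq μ (Real.sinh t) (gg n0 n1 n2 m1 m2 (Real.sinh t))))) := by
  set τ : ℝ := Real.sinh t with hτ
  have hM := Mp_pos h1 h2 τ
  have hD := Dq_pos h0 τ (gg n0 n1 n2 m1 m2 τ)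
  have h := HH_arc (k := k) h0 t (gg n0 n1 n2 m1 m2 τ)
    (Lp n0 n1 n2 m1 m2 (τ ^ 2) / Mp m1 m2 (τ ^ 2) ^ 2)
  rw [← hτ] at h
  unfold barq barq'
  rw [← hτ, h]
  have key : (1 + gg n0 n1 n2 m1 m2 τ ^ 2) * (1 + (k - 1) * μ - τ * gg n0 n1 n2 m1 m2 τ
        + (k - 1) * μ * gg n0 n1 n2 m1 m2 τ ^ 2)
      - Lp n0 n1 n2 m1 m2 (τ ^ 2) / Mp m1 m2 (τ ^ 2) ^ 2 * Dq μ τ (gg n0 n1 n2 m1 m2 τ)
      = PQ μ ((k - 1) * μ) n0 n1 n2 m1 m2 (τ ^ 2) / Mp m1 m2 (τ ^ 2) ^ 4 := by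
    unfold PQ Dq gg
    generalize Lp n0 n1 n2 m1 m2 (τ ^ 2) = L
    generalize Mp m1 m2 (τ ^ 2) = M at hM
    generalize Np n0 n1 n2 (τ ^ 2) = N
    field_simp
  rw [key]
  have hg : 0 < 1 + gg n0 n1 n2 m1 m2 τ ^ 2 := by positivity
  field_simp

lemma sub_of_PQ {μ k : ℝ} (h0 : 0 < μ) (h1 : 0 ≤ m1) (h2 : 0 ≤ m2) {t : ℝ}
    (h : PQ μ ((k - 1) * μ) n0 n1 n2 m1 m2 (Real.sinh t ^ 2) ≤ 0) :
    barq' n0 n1 n2 m1 m2 t ≤ HH μ k t (barq n0 n1 n2 m1 m2 t) := by
  have e := HH_barq (n0 := n0) (n1 := n1) (n2 := n2) (k := k) h0 h1 h2 t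
  have hM := Mp_pos h1 h2 (Real.sinh t)
  have hD := Dq_pos h0 (Real.sinh t) (gg n0 n1 n2 m1 m2 (Real.sinh t))
  have hc := Real.cosh_pos t
  have hden : 0 < (Mp m1 m2 (Real.sinh t ^ 2) ^ 4 * ((1 + gg n0 n1 n2 m1 m2 (Real.sinh t) ^ 2)
          * Dq μ (Real.sinh t) (gg n0 n1 n2 m1 m2 (Real.sinh t)))) := by positivity
  have := div_nonpos_of_nonpos_of_nonneg (mul_nonpos_of_nonneg_of_nonpos hc.le h) hden.le
  linarith

lemma super_of_PQ {μ k : ℝ} (h0 : 0 < μ) (h1 : 0 ≤ m1) (h2 : 0 ≤ m2) {t : ℝ}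
    (h : 0 ≤ PQ μ ((k - 1) * μ) n0 n1 n2 m1 m2 (Real.sinh t ^ 2)) :
    HH μ k t (barq n0 n1 n2 m1 m2 t) ≤ barq' n0 n1 n2 m1 m2 t := by
  have e := HH_barq (n0 := n0) (n1 := n1) (n2 := n2) (k := k) h0 h1 h2 t
  have hM := Mp_pos h1 h2 (Real.sinh t)
  have hD := Dq_pos h0 (Real.sinh t) (gg n0 n1 n2 m1 m2 (Real.sinh t))
  have hc := Real.cosh_pos t
  have hden : 0 < (Mp m1 m2 (Real.sinh t ^ 2) ^ 4 * ((1 + gg n0 n1 n2 m1 m2 (Real.sinh t) ^ 2)
          * Dq μ (Real.sinh t) (gg n0 n1 n2 m1 m2 (Real.sinh t)))) := by positivity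
  have := div_nonneg (mul_nonneg hc.le h) hden.le
  linarith

/-- The simple barrier used for large `t`. -/
noncomputable def bl (t : ℝ) : ℝ := barq 1 0 0 0 0 t

lemma gg_one (τ : ℝ) : gg 1 0 0 0 0 τ = τ := by
  unfold gg Np Mp
  simp

lemma bl_eq (t : ℝ) : bl t = Real.pi - 2 * Real.arctan (Real.sinh t) := by
  unfold bl barq
  rw [gg_one]
  ring

lemma bl_large {μ k t : ℝ} (h0 : 0 < μ) (h1 : μ < 1) (hk0 : 1 ≤ k) (hk3 : k ≤ 5 / 2)
    (ht : 4 ≤ t) : barq' 1 0 0 0 0 t ≤ HH μ k t (bl t) := by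
  refine sub_of_PQ h0 le_rfl le_rfl ?_
  have hs : 4 ≤ Real.sinh t := le_trans ht (Real.self_le_sinh_iff.mpr (by linarith))
  have hT : 16 ≤ Real.sinh t ^ 2 := by nlinarith
  set T := Real.sinh t ^ 2
  set κ := (k - 1) * μ with hκ
  have hκ0 : 0 ≤ κ := mul_nonneg (by linarith) h0.le
  have hκ1 : κ ≤ 3 / 2 := by rw [hκ]; nlinarith
  have e : PQ μ κ 1 0 0 0 0 T = κ + T * (2 * κ + 2 - 4 * μ) + T ^ 2 * (κ - 2) := by
    unfold PQ Lp Np Mp
    ring
  rw [e]
  have a1 : T * (2 * κ + 2 - 4 * μ) ≤ T * 5 := by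
    apply mul_le_mul_of_nonneg_left _ (by linarith)
    linarith
  have a2 : T ^ 2 * (κ - 2) ≤ T ^ 2 * (-(1 / 2)) := by
    apply mul_le_mul_of_nonneg_left _ (by positivity)
    linarith
  nlinarith

lemma barq_le_bl (h1 : 0 ≤ m1) (h2 : 0 ≤ m2) (a0 : 1 ≤ n0) (a1 : m1 ≤ n1) (a2 : m2 ≤ n2)
    {t : ℝ} (ht : 0 ≤ t) : barq n0 n1 n2 m1 m2 t ≤ bl t := by
  have hs : 0 ≤ Real.sinh t := Real.sinh_nonneg_iff.mpr ht
  unfold bl barq
  rw [gg_one]
  have : Real.sinh t ≤ gg n0 n1 n2 m1 m2 (Real.sinh t) := by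
    have hM := Mp_pos h1 h2 (Real.sinh t)
    unfold gg
    rw [le_div_iff₀ hM]
    apply mul_le_mul_of_nonneg_left _ hs
    unfold Mp Np
    have b1 : m1 * Real.sinh t ^ 2 ≤ n1 * Real.sinh t ^ 2 :=
      mul_le_mul_of_nonneg_right a1 (by positivity)
    have b2 : m2 * (Real.sinh t ^ 2) ^ 2 ≤ n2 * (Real.sinh t ^ 2) ^ 2 :=
      mul_le_mul_of_nonneg_right a2 (by positivity)
    linarith
  have := Real.arctan_mono this
  linarith

/-- Existence of the profile of the homogeneous solution. -/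
theorem exists_profile {μ k1 k2 : ℝ} (h0 : 0 < μ) (h1 : μ < 1) (hk1 : 1 ≤ k1)
    (hk12 : k1 ≤ k2) (hk23 : k2 ≤ 5 / 2)
    {a0 a1 a2 b1 b2 : ℝ} (hb1 : 0 ≤ b1) (hb2 : 0 ≤ b2)
    (hlow : ∀ T, 0 ≤ T → PQ μ ((k1 - 1) * μ) a0 a1 a2 b1 b2 T ≤ 0)
    {n0 n1 n2 m1 m2 : ℝ} (hm1 : 0 ≤ m1) (hm2 : 0 ≤ m2)
    (hup : ∀ T, 0 ≤ T → 0 ≤ PQ μ ((k2 - 1) * μ) n0 n1 n2 m1 m2 T)
    (c0 : 1 ≤ n0) (c1 : m1 ≤ n1) (c2 : m2 ≤ n2) :
    ∃ (k : ℝ) (P : ℝ → ℝ), k1 ≤ k ∧ k ≤ k2 ∧ P 0 = Real.pi ∧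
      (∀ t, HasDerivAt P (HH μ k t (P t)) t) ∧ (∀ t, 0 ≤ t → 0 < P t) ∧
      (∀ t, 4 ≤ t → P t ≤ bl t) := by
  have sol : ∀ k : ℝ, 0 ≤ k → k ≤ 3 → ∃ α : ℝ → ℝ, α 0 = Real.pi ∧
      ∀ t, HasDerivAt α (HH μ k t (α t)) t := by
    intro k hk0 hk3
    refine exists_global (HH μ k) (HH_continuous μ k) (Real.toNNReal (20 / μ ^ 2))
      (Real.toNNReal (6 / μ)) (HH_lipschitz h0 h1 hk0 hk3) ?_ _
    intro t x
    rw [Real.coe_toNNReal _ (by positivity)]
    exact HH_bound h0 h1 hk0 hk3 t x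
  choose! Ψ hΨ0 hΨ using sol
  -- continuous dependence
  have dep : ∀ T : ℝ, 0 ≤ T → ∃ C : ℝ, 0 < C ∧ ∀ k k', 0 ≤ k → k ≤ 3 → 0 ≤ k' → k' ≤ 3 →
      ∀ t ∈ Icc 0 T, |Ψ k t - Ψ k' t| ≤ C * |k - k'| := by
    intro T hT
    have hKpos : 0 < 20 / μ ^ 2 := by positivity
    refine ⟨Real.exp (20 / μ ^ 2 * T) / (20 / μ ^ 2), by positivity, ?_⟩
    intro k k' hk0 hk3 hk0' hk3' t ht
    have h := dist_le_of_approx_trajectories_ODE (v := HH μ k)
      (K := Real.toNNReal (20 / μ ^ 2))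
      (f := Ψ k) (g := Ψ k') (f' := fun t => HH μ k t (Ψ k t))
      (g' := fun t => HH μ k' t (Ψ k' t)) (a := 0) (b := T) (εf := 0) (εg := |k - k'|) (δ := 0)
      (HH_lipschitz h0 h1 hk0 hk3)
      (fun t _ => (hΨ k hk0 hk3 t).continuousAt.continuousWithinAt)
      (fun t _ => (hΨ k hk0 hk3 t).hasDerivWithinAt)
      (fun t _ => by simp)
      (fun t _ => (hΨ k' hk0' hk3' t).continuousAt.continuousWithinAt)
      (fun t _ => (hΨ k' hk0' hk3' t).hasDerivWithinAt)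
      (fun t _ => by
        rw [Real.dist_eq, abs_sub_comm]
        exact HH_diff h0 h1 t _)
      (by rw [hΨ0 k hk0 hk3, hΨ0 k' hk0' hk3']; simp) t ht
    rw [Real.dist_eq, gronwallBound_of_K_ne_0 (by
      rw [Real.coe_toNNReal _ hKpos.le]; exact hKpos.ne'), Real.coe_toNNReal _ hKpos.le] at h
    simp only [zero_mul, zero_add, sub_zero] at h
    have h2 : Real.exp (20 / μ ^ 2 * t) ≤ Real.exp (20 / μ ^ 2 * T) := by
      apply Real.exp_le_exp.mpr
      exact mul_le_mul_of_nonneg_left ht.2 hKpos.le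
    calc |Ψ k t - Ψ k' t| ≤ |k - k'| / (20 / μ ^ 2)
            * (Real.exp (20 / μ ^ 2 * t) - 1) := h
      _ ≤ |k - k'| / (20 / μ ^ 2) * Real.exp (20 / μ ^ 2 * T) := by
          apply mul_le_mul_of_nonneg_left (by linarith) (by positivity)
      _ = Real.exp (20 / μ ^ 2 * T) / (20 / μ ^ 2) * |k - k'| := by ring
  -- strict positivity
  have pos : ∀ k, 0 ≤ k → k ≤ 3 → (∀ t, 0 ≤ t → 0 ≤ Ψ k t) → ∀ t, 0 ≤ t → 0 < Ψ k t := by
    intro k hk0 hk3 hnn t ht
    rcases (hnn t ht).lt_or_eq with h | h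
    · exact h
    · exfalso
      have hd := hΨ k hk0 hk3 t
      rw [← h] at hd
      have hneg : HH μ k t 0 < 0 := by
        unfold HH NN DD
        simp only [Real.sin_zero, Real.cos_zero]
        have hc := Real.cosh_pos t
        have : 0 < (μ * k + (2 - μ) * 1 ^ 2) / Real.cosh t := by
          apply div_pos _ (by positivity)
          nlinarith [mul_nonneg h0.le hk0]
        have h2 : Real.tanh t * (0 * 1)
            - (μ * k + (2 - μ) * 1 ^ 2) / Real.cosh t < 0 := by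
          linarith
        apply div_neg_of_neg_of_pos h2
        norm_num
      have hs := (hasDerivAt_iff_tendsto_slope.mp hd).mono_left
        (nhdsWithin_mono t (fun x (hx : x ∈ Ioi t) => ne_of_gt hx))
      have : 0 ≤ HH μ k t 0 := by
        apply ge_of_tendsto hs
        filter_upwards [self_mem_nhdsWithin] with x hx
        rw [slope_def_field]
        apply div_nonneg _ (by linarith [mem_Ioi.mp hx])
        rw [← h]
        have := hnn x (by linarith [mem_Ioi.mp hx])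
        linarith
      linarith
  -- robustness above the barrier
  have robust : ∀ k, 1 ≤ k → k ≤ 5 / 2 → (∀ t, 0 ≤ t → 0 < Ψ k t) → ∀ t0, 4 ≤ t0 →
      bl t0 < Ψ k t0 → ∃ δ, 0 < δ ∧ ∀ k', 1 ≤ k' → k' ≤ 5 / 2 → |k' - k| < δ →
        ∀ t, 0 ≤ t → 0 ≤ Ψ k' t := by
    intro k hk0 hk3 hp t0 ht0 hb
    obtain ⟨C, hC, hdep⟩ := dep t0 (by linarith)
    obtain ⟨tm, htm, hmin⟩ := (isCompact_Icc (a := (0:ℝ)) (b := t0)).exists_isMinOn
      ⟨0, by simp; linarith⟩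
      (fun t _ => (hΨ k (by linarith) (by linarith) t).continuousAt.continuousWithinAt :
        ContinuousOn (Ψ k) (Icc 0 t0))
    have hm : 0 < Ψ k tm := hp tm htm.1
    refine ⟨min (Ψ k tm) (Ψ k t0 - bl t0) / C, div_pos (lt_min hm (by linarith)) hC, ?_⟩
    intro k' hk0' hk3' hkk
    rw [lt_div_iff₀ hC] at hkk
    have hkk1 : C * |k' - k| < Ψ k tm := by
      rw [mul_comm]
      exact lt_of_lt_of_le hkk (min_le_left _ _)
    have hkk2 : C * |k' - k| < Ψ k t0 - bl t0 := by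
      rw [mul_comm]
      exact lt_of_lt_of_le hkk (min_le_right _ _)
    have hclose : ∀ t ∈ Icc 0 t0, |Ψ k' t - Ψ k t| ≤ C * |k' - k| :=
      fun t ht => hdep k' k (by linarith) (by linarith) (by linarith) (by linarith) t ht
    intro t ht
    rcases le_total t t0 with htt | htt
    · have h2 := hclose t ⟨ht, htt⟩
      have h3 : Ψ k tm ≤ Ψ k t := hmin ⟨ht, htt⟩
      rw [abs_le] at h2
      linarith [h2.1]
    · have h2 := hclose t0 ⟨by linarith, le_rfl⟩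
      rw [abs_le] at h2
      have h3 : bl t0 ≤ Ψ k' t0 := by linarith [h2.1]
      have h4 := comparison (HH μ k') (Real.toNNReal (20 / μ ^ 2))
        (HH_lipschitz h0 h1 (by linarith) (by linarith)) (z := bl) (z' := barq' 1 0 0 0 0)
        (w := Ψ k') (w' := fun t => HH μ k' t (Ψ k' t)) (a := t0)
        (fun t _ => hasDerivAt_barq le_rfl le_rfl t)
        (fun t _ => hΨ k' (by linarith) (by linarith) t)
        (fun t ht => bl_large h0 h1 hk0' hk3' (by linarith)) (fun t _ => le_rfl) h3 t htt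
      have : 0 < bl t := barq_pos t
      linarith
  -- the good parameter
  set A : Set ℝ := {k | k1 ≤ k ∧ k ≤ k2 ∧ ∃ t, 0 ≤ t ∧ Ψ k t < 0} with hAdef
  have hk1A : k1 ∉ A := by
    rintro ⟨_, _, t, ht, hneg⟩
    have h4 := comparison (HH μ k1) (Real.toNNReal (20 / μ ^ 2))
      (HH_lipschitz h0 h1 (by linarith) (by linarith)) (z := barq a0 a1 a2 b1 b2)
      (z' := barq' a0 a1 a2 b1 b2)
      (w := Ψ k1) (w' := fun t => HH μ k1 t (Ψ k1 t)) (a := 0)
      (fun t _ => hasDerivAt_barq hb1 hb2 t) (fun t _ => hΨ k1 (by linarith) (by linarith) t)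
      (fun t _ => sub_of_PQ h0 hb1 hb2 (hlow _ (sq_nonneg _))) (fun t _ => le_rfl)
      (by rw [barq_zero, hΨ0 k1 (by linarith) (by linarith)]) t ht
    have := barq_pos (n0 := a0) (n1 := a1) (n2 := a2) (m1 := b1) (m2 := b2) t
    linarith
  have hgood : ∃ k, k1 ≤ k ∧ k ≤ k2 ∧ (∀ t, 0 ≤ t → 0 < Ψ k t) ∧
      ∀ t, 4 ≤ t → Ψ k t ≤ bl t := by
    rcases A.eq_empty_or_nonempty with hemp | hne
    · have hnn : ∀ t, 0 ≤ t → 0 ≤ Ψ k2 t := by
        intro t ht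
        by_contra hcon
        push Not at hcon
        have : k2 ∈ A := ⟨hk12, le_rfl, t, ht, hcon⟩
        rw [hemp] at this
        exact this
      refine ⟨k2, hk12, le_rfl, pos k2 (by linarith) (by linarith) hnn, ?_⟩
      intro t ht
      have h4 := comparison (HH μ k2) (Real.toNNReal (20 / μ ^ 2))
        (HH_lipschitz h0 h1 (by linarith) (by linarith)) (z := Ψ k2)
        (z' := fun t => HH μ k2 t (Ψ k2 t)) (w := barq n0 n1 n2 m1 m2)
        (w' := barq' n0 n1 n2 m1 m2) (a := 0)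
        (fun t _ => hΨ k2 (by linarith) (by linarith) t) (fun t _ => hasDerivAt_barq hm1 hm2 t)
        (fun t _ => le_rfl) (fun t _ => super_of_PQ h0 hm1 hm2 (hup _ (sq_nonneg _)))
        (by rw [barq_zero, hΨ0 k2 (by linarith) (by linarith)]) t (by linarith)
      exact h4.trans (barq_le_bl hm1 hm2 c0 c1 c2 (by linarith))
    · have hbdd : BddBelow A := ⟨k1, fun k hk => hk.1⟩
      set ks : ℝ := sInf A with hks
      have hks1 : k1 ≤ ks := le_csInf hne (fun k hk => hk.1)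
      have hks2 : ks ≤ k2 := by
        obtain ⟨k, hk⟩ := hne
        exact (csInf_le hbdd hk).trans hk.2.1
      have hks3 : ks ≤ 3 := by linarith
      have hksA : ks ∉ A := by
        rintro hmem
        obtain ⟨_, _, t, ht, hneg⟩ := hmem
        have hlt : k1 < ks := by
          rcases hks1.lt_or_eq with h | h
          · exact h
          · exfalso
            apply hk1A
            rw [h]
            exact ⟨hks1, hks2, t, ht, hneg⟩
        obtain ⟨C, hC, hdep⟩ := dep t ht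
        set ε : ℝ := min (ks - k1) (-(Ψ ks t) / (2 * C)) with hε
        have hεpos : 0 < ε := lt_min (by linarith) (div_pos (by linarith) (by positivity))
        have hε1 : ε ≤ ks - k1 := min_le_left _ _
        have hε2 : C * ε ≤ -(Ψ ks t) / 2 := by
          have : ε ≤ -(Ψ ks t) / (2 * C) := min_le_right _ _
          rw [le_div_iff₀ (by positivity)] at this
          linarith
        have h2 := hdep (ks - ε) ks (by linarith) (by linarith) (by linarith) hks3 t ⟨ht, le_rfl⟩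
        have h3 : |ks - ε - ks| = ε := by
          rw [show ks - ε - ks = -ε by ring, abs_neg, abs_of_pos hεpos]
        rw [h3, abs_le] at h2
        have : ks - ε ∈ A := ⟨by linarith, by linarith, t, ht, by linarith [h2.2]⟩
        have := csInf_le hbdd this
        linarith
      have hnn : ∀ t, 0 ≤ t → 0 ≤ Ψ ks t := by
        intro t ht
        by_contra hcon
        push Not at hcon
        exact hksA ⟨hks1, hks2, t, ht, hcon⟩
      have hpos := pos ks (by linarith) hks3 hnn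
      refine ⟨ks, hks1, hks2, hpos, ?_⟩
      intro t ht
      by_contra hcon
      push Not at hcon
      obtain ⟨δ, hδ, hrob⟩ := robust ks (by linarith) (by linarith) hpos t ht hcon
      obtain ⟨k', hk', hlt⟩ := exists_lt_of_csInf_lt hne (show sInf A < ks + δ by linarith)
      have hge : ks ≤ k' := csInf_le hbdd hk'
      obtain ⟨a1, a2, s, hs, hneg⟩ := hk'
      have := hrob k' (by linarith) (by linarith) (by rw [abs_of_nonneg (by linarith)]; linarith)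
        s hs
      linarith
  obtain ⟨k, hka, hkb, hp, hb⟩ := hgood
  exact ⟨k, Ψ k, hka, hkb, hΨ0 k (by linarith) (by linarith),
    hΨ k (by linarith) (by linarith), hp, hb⟩

end Pool.Agent.H230.C3.Ode
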