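import Pool.Agent.H230.C3.Fun
import Pool.Graph.R_seed8.Helper749.PReg

/-!
Coordinates on `R x R^2`.
-/

set_option autoImplicit false

namespace Pool.Agent.H230.C3.Geo

open Set Filter Topology MeasureTheory
open Pool.Agent.Helper749.PReg

/-- The space `R^3 = R x R^2`. -/
abbrev E := EuclideanSpace ℝ (Fin 3)

/-- coordinate -/
noncomputable def pr (i : Fin 3) : E →L[ℝ] ℝ := EuclideanSpace.proj i

lemma hasFDerivAt_coord (i : Fin 3) (z : E) :
    HasFDerivAt (fun z : E => z i) (pr i) z :=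
  (EuclideanSpace.proj i : E →L[ℝ] ℝ).hasFDerivAt

/-- Squared distance from the axis. -/
noncomputable def YY (z : E) : ℝ := z 1 ^ 2 + z 2 ^ 2

/-- Squared radius. -/
noncomputable def RR (z : E) : ℝ := z 0 ^ 2 + YY z

/-- Derivative of `YY`. -/
noncomputable def dYY (z : E) : E →L[ℝ] ℝ := (2 * z 1) • pr 1 + (2 * z 2) • pr 2

/-- Derivative of `RR`. -/
noncomputable def dRR (z : E) : E →L[ℝ] ℝ := (2 * z 0) • pr 0 + dYY z

/-- Indicator of the axis coordinate. -/
def cX (i : Fin 3) : ℝ := if i = 0 then 1 else 0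

/-- Indicator of the other coordinates. -/
def cY (i : Fin 3) : ℝ := if i = 0 then 0 else 1

lemma pr_single (i j : Fin 3) : pr i (EuclideanSpace.single j 1) = if i = j then 1 else 0 := by
  simp [pr]

lemma hasFDerivAt_sq (i : Fin 3) (z : E) :
    HasFDerivAt (fun z : E => z i ^ 2) ((2 * z i) • pr i) z := by
  refine ((hasFDerivAt_coord i z).pow 2).congr_fderiv ?_
  simp

lemma hasFDerivAt_YY (z : E) : HasFDerivAt YY (dYY z) z :=
  (hasFDerivAt_sq 1 z).add (hasFDerivAt_sq 2 z)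

lemma hasFDerivAt_RR (z : E) : HasFDerivAt RR (dRR z) z :=
  (hasFDerivAt_sq 0 z).add (hasFDerivAt_YY z)

lemma dYY_single (z : E) (j : Fin 3) :
    dYY z (EuclideanSpace.single j 1) = 2 * z j * cY j := by
  unfold dYY cY
  simp only [_root_.add_apply, _root_.smul_apply, pr_single, smul_eq_mul]
  fin_cases j <;> simp

lemma dRR_single (z : E) (j : Fin 3) :
    dRR z (EuclideanSpace.single j 1) = 2 * z j := by
  unfold dRR
  simp only [_root_.add_apply, _root_.smul_apply, pr_single, dYY_single, smul_eq_mul, cY]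
  fin_cases j <;> simp

lemma YY_nonneg (z : E) : 0 ≤ YY z := by
  unfold YY
  positivity

lemma RR_nonneg (z : E) : 0 ≤ RR z := add_nonneg (sq_nonneg _) (YY_nonneg z)

lemma norm_sq (z : E) : ‖z‖ ^ 2 = RR z := by
  rw [EuclideanSpace.norm_sq_eq, Fin.sum_univ_three]
  simp only [Real.norm_eq_abs, sq_abs]
  unfold RR YY
  ring

lemma continuous_YY : Continuous YY :=
  continuous_iff_continuousAt.mpr fun z => (hasFDerivAt_YY z).continuousAt

lemma continuous_RR : Continuous RR :=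
  continuous_iff_continuousAt.mpr fun z => (hasFDerivAt_RR z).continuousAt

lemma continuous_coord (i : Fin 3) : Continuous fun z : E => z i :=
  (EuclideanSpace.proj i : E →L[ℝ] ℝ).continuous

/-- The complement of the axis. -/
def UU : Set E := {z | 0 < YY z}

lemma isOpen_UU : IsOpen UU := isOpen_lt continuous_const continuous_YY

lemma RR_pos {z : E} (hz : z ∈ UU) : 0 < RR z := by
  have : 0 < YY z := hz
  have := sq_nonneg (z 0)
  unfold RR
  linarith

lemma sqrt_pos {z : E} (hz : z ∈ UU) : 0 < √(RR z) := Real.sqrt_pos.2 (RR_pos hz)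

lemma add_sqrt_pos {z : E} (hz : z ∈ UU) : 0 < z 0 + √(RR z) := by
  have h1 : 0 < YY z := hz
  have h2 : |z 0| < √(RR z) := by
    rw [← Real.sqrt_sq_eq_abs]
    apply Real.sqrt_lt_sqrt (sq_nonneg _)
    unfold RR
    linarith
  have h3 := neg_abs_le (z 0)
  linarith

lemma ae_UU : ∀ᵐ z : E, z ∈ UU := by
  have key : volume {z : E | z 1 = 0} = 0 := by
    have : {z : E | z 1 = 0}
        = ((LinearMap.ker (EuclideanSpace.proj 1 : E →L[ℝ] ℝ).toLinearMap : Submodule ℝ E)
          : Set E) := by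
      ext z
      simp
    rw [this]
    apply Measure.addHaar_submodule
    intro h
    have h2 : (EuclideanSpace.single 1 (1:ℝ) : E)
        ∈ LinearMap.ker (EuclideanSpace.proj 1 : E →L[ℝ] ℝ).toLinearMap := by
      rw [h]
      trivial
    simp at h2
  have h0 : ∀ᵐ z : E, z 1 ≠ 0 := by
    rw [ae_iff]
    simpa using key
  filter_upwards [h0] with z hz
  change 0 < YY z
  unfold YY
  have : 0 < z 1 ^ 2 := by positivity
  have := sq_nonneg (z 2)
  linarith

/-- The angular variable. -/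
noncomputable def tt (z : E) : ℝ := Real.log (z 0 + √(RR z)) - Real.log (YY z) / 2

/-- Its derivative. -/
noncomputable def dtt (z : E) : E →L[ℝ] ℝ :=
  (√(RR z))⁻¹ • (pr 0 - (z 0 / (2 * YY z)) • dYY z)

lemma sqrt_sq {z : E} : √(RR z) ^ 2 = RR z := Real.sq_sqrt (RR_nonneg z)

lemma hasFDerivAt_tt {z : E} (hz : z ∈ UU) : HasFDerivAt tt (dtt z) z := by
  have hY : 0 < YY z := hz
  have hs := sqrt_pos hz
  have ha := add_sqrt_pos hz
  have h1 := ((hasFDerivAt_coord 0 z).add ((hasFDerivAt_RR z).sqrt (RR_pos hz).ne')).log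
    (x := z) ha.ne'
  have h2 := ((hasFDerivAt_YY z).log (x := z) hY.ne').const_mul (1 / 2 : ℝ)
  have h3 := h1.sub h2
  have h4 : HasFDerivAt tt ((z 0 + √(RR z))⁻¹ • (pr 0 + (1 / (2 * √(RR z))) • dRR z)
      - (1 / 2 : ℝ) • ((YY z)⁻¹ • dYY z)) z := by
    refine HasFDerivAt.congr_of_eventuallyEq h3 ?_
    filter_upwards with w
    unfold tt
    simp only [Pi.sub_apply, Pi.add_apply]
    ring
  refine h4.congr_fderiv ?_
  unfold dtt dRR
  have hR : RR z = z 0 ^ 2 + YY z := rfl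
  have hsq := sqrt_sq (z := z)
  ext w
  simp only [_root_.smul_apply, _root_.sub_apply, _root_.add_apply, smul_eq_mul]
  generalize dYY z w = a
  generalize pr 0 w = b
  set s := √(RR z) with hsdef
  have hY' : YY z = s ^ 2 - z 0 ^ 2 := by rw [hsq, hR]; ring
  rw [hY']
  have h5 : s ^ 2 - z 0 ^ 2 ≠ 0 := by rw [← hY']; exact hY.ne'
  have h6 : z 0 + s ≠ 0 := ha.ne'
  field_simp
  ring

lemma dtt_single_zero (z : E) : dtt z (EuclideanSpace.single 0 1) = (√(RR z))⁻¹ := by
  unfold dtt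
  simp only [_root_.smul_apply, _root_.sub_apply, smul_eq_mul, pr_single, dYY_single, cY]
  simp

lemma dtt_single {z : E} (hz : z ∈ UU) {j : Fin 3} (hj : j ≠ 0) :
    dtt z (EuclideanSpace.single j 1) = - (z 0 * z j / (YY z * √(RR z))) := by
  have hY : 0 < YY z := hz
  have hs := sqrt_pos hz
  unfold dtt
  simp only [_root_.smul_apply, _root_.sub_apply, smul_eq_mul, pr_single, dYY_single, cY,
    if_neg hj, if_neg hj.symm]
  field_simp
  ring

lemma tanh_tt {z : E} (hz : z ∈ UU) : Real.tanh (tt z) = z 0 / √(RR z) := by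
  have hY : 0 < YY z := hz
  have hs := sqrt_pos hz
  have ha := add_sqrt_pos hz
  have h2 : Real.exp (tt z) * Real.exp (tt z) = (z 0 + √(RR z)) ^ 2 / YY z := by
    rw [← Real.exp_add]
    have : tt z + tt z = (Real.log (z 0 + √(RR z)) + Real.log (z 0 + √(RR z)))
      - Real.log (YY z) := by unfold tt; ring
    rw [this, Real.exp_sub, Real.exp_add, Real.exp_log ha, Real.exp_log hY]
    ring
  have hp := Real.exp_pos (tt z)
  rw [Real.tanh_eq_sinh_div_cosh, Real.sinh_eq, Real.cosh_eq, Real.exp_neg]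
  set a := Real.exp (tt z)
  set s := √(RR z) with hsdef
  have hsq : s ^ 2 = RR z := sqrt_sq
  have hR : RR z = z 0 ^ 2 + YY z := rfl
  have hY' : YY z = s ^ 2 - z 0 ^ 2 := by rw [hsq, hR]; ring
  have ha2 : a * a * YY z = (z 0 + s) ^ 2 := by
    rw [h2]
    field_simp
  have hsm : 0 < s - z 0 := by
    have : 0 < (s - z 0) * (z 0 + s) := by
      have : (s - z 0) * (z 0 + s) = YY z := by rw [hY']; ring
      rw [this]; exact hY
    exact (pos_iff_pos_of_mul_pos this).2 ha
  have ha3 : a ^ 2 * (s - z 0) = z 0 + s := by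
    have : a * a * ((s - z 0) * (z 0 + s)) = (z 0 + s) ^ 2 := by
      rw [← ha2, hY']; ring
    have h5 : (a ^ 2 * (s - z 0)) * (z 0 + s) = (z 0 + s) * (z 0 + s) := by
      linear_combination this
    exact mul_right_cancel₀ ha.ne' h5
  have hden : a + a⁻¹ ≠ 0 := by positivity
  rw [div_div_div_cancel_right₀ (by norm_num : (2:ℝ) ≠ 0), div_eq_div_iff hden hs.ne']
  field_simp
  linear_combination ha3

lemma cosh_tt {z : E} (hz : z ∈ UU) : 1 / Real.cosh (tt z) ^ 2 = YY z / RR z := by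
  have hR := RR_pos hz
  have h1 := tanh_tt hz
  have h2 : 1 / Real.cosh (tt z) ^ 2 = 1 - Real.tanh (tt z) ^ 2 := by
    rw [Real.tanh_eq_sinh_div_cosh]
    have hc := Real.cosh_pos (tt z)
    have := Real.cosh_sq (tt z)
    field_simp
    linarith
  rw [h2, h1, div_pow, sqrt_sq]
  have e : RR z = z 0 ^ 2 + YY z := rfl
  field_simp
  rw [e]
  ring

/-- The building block `R^s a(t)`. -/
noncomputable def bb (s : ℝ) (a : ℝ → ℝ) (z : E) : ℝ := RR z ^ s * a (tt z)

/-- The derivative of the building block. -/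
noncomputable def dbb (s : ℝ) (a : ℝ → ℝ) (a' : ℝ) (z : E) : E →L[ℝ] ℝ :=
  RR z ^ s • (a' • dtt z) + a (tt z) • ((s * RR z ^ (s - 1)) • dRR z)

lemma hasFDerivAt_bb {s : ℝ} {a : ℝ → ℝ} {a' : ℝ} {z : E} (hz : z ∈ UU)
    (ha : HasDerivAt a a' (tt z)) : HasFDerivAt (bb s a) (dbb s a a' z) z := by
  have h1 : HasFDerivAt (fun z => RR z ^ s) ((s * RR z ^ (s - 1)) • dRR z) z :=
    (hasFDerivAt_RR z).rpow_const (Or.inl (RR_pos hz).ne')
  have h2 : HasFDerivAt (fun z => a (tt z)) (a' • dtt z) z :=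
    ha.comp_hasFDerivAt z (hasFDerivAt_tt hz)
  exact h1.mul h2

lemma dbb_single (s : ℝ) (a : ℝ → ℝ) (a' : ℝ) (z : E) (j : Fin 3) :
    dbb s a a' z (EuclideanSpace.single j 1)
      = RR z ^ s * a' * dtt z (EuclideanSpace.single j 1)
        + 2 * s * RR z ^ (s - 1) * z j * a (tt z) := by
  unfold dbb
  simp only [_root_.smul_apply, _root_.add_apply, dRR_single, smul_eq_mul]
  ring

lemma rpow_half_mul {R : ℝ} (hR : 0 < R) (e : ℝ) : R ^ (e + 1 / 2) = R ^ e * √R := by
  rw [Real.rpow_add hR, Real.sqrt_eq_rpow]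

/-- The gradient of `R^{k/2} V(t)`, first component. -/
lemma grad_u_zero {z : E} (hz : z ∈ UU) {k : ℝ} {V : ℝ → ℝ} {β : ℝ} :
    dbb (k / 2) V (β / Real.cosh (tt z) ^ 2) z (EuclideanSpace.single 0 1)
      = RR z ^ (k / 2 - 1) * (k * z 0 * V (tt z) + β * YY z / √(RR z)) := by
  have hR := RR_pos hz
  have hs := sqrt_pos hz
  rw [dbb_single, dtt_single_zero]
  have e1 : β / Real.cosh (tt z) ^ 2 = β * YY z / RR z := by
    have := cosh_tt hz
    have e : β / Real.cosh (tt z) ^ 2 = β * (1 / Real.cosh (tt z) ^ 2) := by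
      field_simp
    rw [e, this]
    ring
  have e2 : RR z ^ (k / 2) = RR z ^ (k / 2 - 1) * RR z := by
    rw [← Real.rpow_add_one hR.ne']
    congr 1
    ring
  rw [e1, e2]
  field_simp
  ring

/-- The gradient of `R^{k/2} V(t)`, other components. -/
lemma grad_u {z : E} (hz : z ∈ UU) {k : ℝ} {V : ℝ → ℝ} {β : ℝ} {j : Fin 3} (hj : j ≠ 0) :
    dbb (k / 2) V (β / Real.cosh (tt z) ^ 2) z (EuclideanSpace.single j 1)
      = z j * (RR z ^ (k / 2 - 1) * (k * V (tt z) - Real.tanh (tt z) * β)) := by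
  have hR := RR_pos hz
  have hY : 0 < YY z := hz
  have hs := sqrt_pos hz
  rw [dbb_single, dtt_single hz hj, tanh_tt hz]
  have e1 : β / Real.cosh (tt z) ^ 2 = β * YY z / RR z := by
    have := cosh_tt hz
    have e : β / Real.cosh (tt z) ^ 2 = β * (1 / Real.cosh (tt z) ^ 2) := by
      field_simp
    rw [e, this]
    ring
  have e2 : RR z ^ (k / 2) = RR z ^ (k / 2 - 1) * RR z := by
    rw [← Real.rpow_add_one hR.ne']
    congr 1
    ring
  rw [e1, e2]
  field_simp
  ring

end Pool.Agent.H230.C3.Geo
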