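import Pool.Agent.H230.C3.Int

/-!
Continuity and homogeneity of the gradient of the homogeneous `p`-harmonic function.
-/

set_option autoImplicit false

namespace Pool.Agent.H230.C3.Grad

open Set Filter Topology MeasureTheory
open Pool.Agent.Helper749.PReg
open Pool.Agent.H230.C3.Geo Pool.Agent.H230.C3.Sol Pool.Agent.H230.C3.Int
open scoped ContDiff

variable {μ : ℝ} (Pr : Prof μ)

lemma pd_axis_p {z : E} (hX : 0 < z 0) (hY : YY z = 0) (j : Fin 3) :
    pd j (uu Pr) z = z j * (RR z ^ (Pr.k / 2 - 1) * (Pr.k * Pr.Vp)) := by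
  unfold pd
  rw [(hasFDerivAt_axis_p Pr hX hY).fderiv]
  simp only [_root_.smul_apply, smul_eq_mul, dRR_single]
  ring

lemma pd_axis_m {z : E} (hX : z 0 < 0) (hY : YY z = 0) (j : Fin 3) :
    pd j (uu Pr) z = z j * (RR z ^ (Pr.k / 2 - 1) * (Pr.k * Pr.Vm)) := by
  unfold pd
  rw [(hasFDerivAt_axis_m Pr hX hY).fderiv]
  simp only [_root_.smul_apply, smul_eq_mul, dRR_single]
  ring

lemma pd_zero (j : Fin 3) : pd j (uu Pr) (0 : E) = 0 := by
  unfold pd
  rw [(hasFDerivAt_zero Pr).fderiv]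
  simp

lemma abs_le_sqrt_Y (z : E) {i : Fin 3} (hi : i ≠ 0) : |z i| ≤ √(YY z) := by
  apply Real.abs_le_sqrt
  unfold YY
  have h1 := sq_nonneg (z 1)
  have h2 := sq_nonneg (z 2)
  fin_cases i
  · exact absurd rfl hi
  · simp only [Fin.mk_one]
    linarith
  · simp only [Fin.reduceFinMk]
    linarith

lemma abs_le_sqrt_R (z : E) (j : Fin 3) : |z j| ≤ √(RR z) := by
  rw [← norm_sq, Real.sqrt_sq (norm_nonneg z)]
  exact PiLp.norm_apply_le z j

lemma YY_le_RR (z : E) : YY z ≤ RR z := by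
  unfold RR
  have := sq_nonneg (z 0)
  linarith

lemma div_sqrt_le {z : E} (hz : z ∈ UU) : YY z / √(RR z) ≤ √(YY z) := by
  have hY : 0 < YY z := hz
  have hs := sqrt_pos hz
  rw [div_le_iff₀ hs]
  have h1 : √(YY z) ≤ √(RR z) := Real.sqrt_le_sqrt (YY_le_RR z)
  have h2 : √(YY z) * √(YY z) = YY z := Real.mul_self_sqrt hY.le
  have h3 := Real.sqrt_nonneg (YY z)
  nlinarith

lemma abs_zero_mul_le {z : E} (hz : z ∈ UU) : |z 0| * (YY z / RR z) ≤ √(YY z) := by
  have hY : 0 < YY z := hz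
  have hs := sqrt_pos hz
  have hsq : √(RR z) ^ 2 = RR z := sqrt_sq
  refine le_trans ?_ (div_sqrt_le hz)
  have e : YY z / √(RR z) = √(RR z) * (YY z / RR z) := by
    rw [← hsq]
    rw [Real.sqrt_sq hs.le]
    field_simp
  rw [e]
  apply mul_le_mul_of_nonneg_right (abs_le_sqrt_R z 0)
  exact div_nonneg hY.le (RR_nonneg z)

/-- common estimate near the axis -/
lemma near_aux {z : E} (hz : z ∈ UU) {c : ℝ} (hc : |Pr.V (tt z) - c| ≤ Pr.M * (YY z / RR z))
    (j : Fin 3) :
    |pd j (uu Pr) z - z j * (RR z ^ (Pr.k / 2 - 1) * (Pr.k * c))|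
      ≤ RR z ^ (Pr.k / 2 - 1) * ((Pr.k + 1) * Pr.M * √(YY z)) := by
  have hY : 0 < YY z := hz
  have hR := RR_pos hz
  have hs := sqrt_pos hz
  have hk := Pr.hk2
  have hM := Pr.hM
  have hβ := Pr.βM (tt z)
  have hRp := (Real.rpow_pos_of_pos hR (Pr.k / 2 - 1))
  have hsY := Real.sqrt_nonneg (YY z)
  by_cases hj : j = 0
  · subst hj
    rw [pd_uu_zero Pr hz]
    have e : RR z ^ (Pr.k / 2 - 1) * (Pr.k * z 0 * Pr.V (tt z) + Pr.β (tt z) * YY z / √(RR z))
        - z 0 * (RR z ^ (Pr.k / 2 - 1) * (Pr.k * c))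
        = RR z ^ (Pr.k / 2 - 1) * (Pr.k * (z 0 * (Pr.V (tt z) - c))
          + Pr.β (tt z) * (YY z / √(RR z))) := by ring
    rw [e, abs_mul, abs_of_pos hRp]
    apply mul_le_mul_of_nonneg_left _ hRp.le
    refine (abs_add_le _ _).trans ?_
    rw [abs_mul, abs_mul, abs_mul (Pr.β (tt z)), abs_of_pos (by linarith : 0 < Pr.k),
      abs_of_nonneg (div_nonneg hY.le hs.le)]
    have h1 : |z 0| * |Pr.V (tt z) - c| ≤ Pr.M * √(YY z) := by
      calc |z 0| * |Pr.V (tt z) - c| ≤ |z 0| * (Pr.M * (YY z / RR z)) :=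
            mul_le_mul_of_nonneg_left hc (abs_nonneg _)
        _ = Pr.M * (|z 0| * (YY z / RR z)) := by ring
        _ ≤ Pr.M * √(YY z) := mul_le_mul_of_nonneg_left (abs_zero_mul_le hz) hM.le
    have h2 : |Pr.β (tt z)| * (YY z / √(RR z)) ≤ Pr.M * √(YY z) :=
      mul_le_mul hβ (div_sqrt_le hz) (div_nonneg hY.le hs.le) hM.le
    nlinarith
  · rw [pd_uu Pr hz hj]
    have e : z j * (RR z ^ (Pr.k / 2 - 1) * (Pr.k * Pr.V (tt z) - Real.tanh (tt z) * Pr.β (tt z)))
        - z j * (RR z ^ (Pr.k / 2 - 1) * (Pr.k * c))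
        = RR z ^ (Pr.k / 2 - 1) * (z j * (Pr.k * (Pr.V (tt z) - c)
          - Real.tanh (tt z) * Pr.β (tt z))) := by ring
    rw [e, abs_mul, abs_of_pos hRp, abs_mul]
    apply mul_le_mul_of_nonneg_left _ hRp.le
    have hT : |Real.tanh (tt z)| ≤ 1 := Pool.Agent.Helper749.ConeOde.abs_tanh_le _
    have h1 : |Pr.k * (Pr.V (tt z) - c) - Real.tanh (tt z) * Pr.β (tt z)| ≤ (Pr.k + 1) * Pr.M := by
      refine (abs_sub _ _).trans ?_
      rw [abs_mul, abs_mul, abs_of_pos (by linarith : 0 < Pr.k)]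
      have h3 : YY z / RR z ≤ 1 := by
        rw [div_le_one hR]
        exact YY_le_RR z
      have h4 : |Pr.V (tt z) - c| ≤ Pr.M := hc.trans (by nlinarith)
      have h5 : |Real.tanh (tt z)| * |Pr.β (tt z)| ≤ 1 * Pr.M :=
        mul_le_mul hT hβ (abs_nonneg _) (by norm_num)
      nlinarith
    calc |z j| * |Pr.k * (Pr.V (tt z) - c) - Real.tanh (tt z) * Pr.β (tt z)|
        ≤ √(YY z) * ((Pr.k + 1) * Pr.M) :=
          mul_le_mul (abs_le_sqrt_Y z hj) h1 (abs_nonneg _) hsY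
      _ = (Pr.k + 1) * Pr.M * √(YY z) := by ring

lemma pd_near_p {z : E} (hX : 0 < z 0) (j : Fin 3) :
    |pd j (uu Pr) z - z j * (RR z ^ (Pr.k / 2 - 1) * (Pr.k * Pr.Vp))|
      ≤ RR z ^ (Pr.k / 2 - 1) * ((Pr.k + 1) * Pr.M * √(YY z)) := by
  rcases (YY_nonneg z).eq_or_lt with h | h
  · rw [pd_axis_p Pr hX h.symm, ← h]
    simp
  · have hU : z ∈ UU := h
    exact near_aux Pr hU ((Pr.limp (tt z)).trans
      (mul_le_mul_of_nonneg_left (one_sub_tanh hU hX.le) Pr.hM.le)) j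

lemma pd_near_m {z : E} (hX : z 0 < 0) (j : Fin 3) :
    |pd j (uu Pr) z - z j * (RR z ^ (Pr.k / 2 - 1) * (Pr.k * Pr.Vm))|
      ≤ RR z ^ (Pr.k / 2 - 1) * ((Pr.k + 1) * Pr.M * √(YY z)) := by
  rcases (YY_nonneg z).eq_or_lt with h | h
  · rw [pd_axis_m Pr hX h.symm, ← h]
    simp
  · have hU : z ∈ UU := h
    exact near_aux Pr hU ((Pr.limm (tt z)).trans
      (mul_le_mul_of_nonneg_left (one_add_tanh hU hX.le) Pr.hM.le)) j

/-- bound of the gradient everywhere -/
lemma pd_bound (z : E) (j : Fin 3) :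
    |pd j (uu Pr) z| ≤ (Pr.M + Pr.k * |Pr.Vp| + Pr.k * |Pr.Vm|) * RR z ^ ((Pr.k - 1) / 2) := by
  have hk := Pr.hk2
  have hM := Pr.hM
  have hR : 0 ≤ RR z ^ ((Pr.k - 1) / 2) := Real.rpow_nonneg (RR_nonneg z) _
  have hp1 : 0 ≤ Pr.k * |Pr.Vp| := by positivity
  have hp2 : 0 ≤ Pr.k * |Pr.Vm| := by positivity
  have haxis : 0 < RR z → ∀ c : ℝ, |z j * (RR z ^ (Pr.k / 2 - 1) * (Pr.k * c))|
      ≤ Pr.k * |c| * RR z ^ ((Pr.k - 1) / 2) := by
    intro hRR c
    have e : RR z ^ ((Pr.k - 1) / 2) = RR z ^ (1 / 2 : ℝ) * RR z ^ (Pr.k / 2 - 1) := by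
      rw [← Real.rpow_add hRR]
      congr 1
      ring
    have h1 : |z j| ≤ RR z ^ (1 / 2 : ℝ) := by
      rw [← Real.sqrt_eq_rpow]
      exact abs_le_sqrt_R z j
    rw [e, abs_mul, abs_mul, abs_mul, abs_of_pos (Real.rpow_pos_of_pos hRR _),
      abs_of_pos (by linarith : 0 < Pr.k)]
    calc |z j| * (RR z ^ (Pr.k / 2 - 1) * (Pr.k * |c|))
        ≤ RR z ^ (1 / 2 : ℝ) * (RR z ^ (Pr.k / 2 - 1) * (Pr.k * |c|)) := by gcongr
      _ = _ := by ring
  rcases (YY_nonneg z).eq_or_lt with hY | hY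
  · have hRne : z 0 ≠ 0 → 0 < RR z := by
      intro h
      unfold RR
      have : 0 < z 0 ^ 2 := by positivity
      linarith
    rcases lt_trichotomy (z 0) 0 with h | h | h
    · rw [pd_axis_m Pr h hY.symm]
      refine (haxis (hRne h.ne) _).trans ?_
      nlinarith
    · have h0 := eq_zero_of h hY.symm
      subst h0
      rw [pd_zero, abs_zero]
      positivity
    · rw [pd_axis_p Pr h hY.symm]
      refine (haxis (hRne h.ne') _).trans ?_
      nlinarith
  · have hU : z ∈ UU := hY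
    have h1 : ‖GG Pr z j‖ ≤ ‖GG Pr z‖ := PiLp.norm_apply_le _ j
    rw [norm_GG Pr hU, Real.norm_eq_abs, GG_apply] at h1
    refine h1.trans ?_
    have h2 := Pr.ρM (tt z)
    have h3 : RR z ^ ((Pr.k - 1) / 2) * Pr.ρ (tt z) ≤ RR z ^ ((Pr.k - 1) / 2) * Pr.M :=
      mul_le_mul_of_nonneg_left h2 hR
    nlinarith

/-- the gradient is continuous -/
lemma continuous_pd_uu (j : Fin 3) : Continuous (pd j (uu Pr)) := by
  have hk := Pr.hk2
  have hM := Pr.hM
  have cz : Continuous (fun z : E => z j) := continuous_coord j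
  have cR : ∀ s : ℝ, 0 ≤ s → Continuous (fun z : E => RR z ^ s) :=
    fun s hs => continuous_RRpow hs
  rw [continuous_iff_continuousAt]
  intro z₀
  -- squeeze principle
  have sq : ∀ (c b : E → ℝ), Continuous c → Continuous b → b z₀ = 0 →
      (∀ᶠ z in 𝓝 z₀, |pd j (uu Pr) z - c z| ≤ b z) → ContinuousAt (pd j (uu Pr)) z₀ := by
    intro c b hc hb hb0 hle
    have h1 : Tendsto (fun z => pd j (uu Pr) z - c z) (𝓝 z₀) (𝓝 0) := by
      rw [tendsto_zero_iff_abs_tendsto_zero]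
      refine squeeze_zero' (Eventually.of_forall fun z => abs_nonneg _) hle ?_
      rw [← hb0]
      exact hb.tendsto z₀
    have h2 := h1.add (hc.tendsto z₀)
    have h3 : pd j (uu Pr) z₀ = c z₀ := by
      have := hle.self_of_nhds
      rw [hb0] at this
      have := abs_nonpos_iff.1 this
      linarith
    rw [ContinuousAt, h3]
    have e : (fun z => pd j (uu Pr) z - c z + c z) = pd j (uu Pr) := by
      ext z
      ring
    rw [e, zero_add] at h2
    exact h2
  rcases (YY_nonneg z₀).eq_or_lt with hY | hY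
  · rcases lt_trichotomy (z₀ 0) 0 with hX | hX | hX
    · refine sq (fun z => z j * (RR z ^ (Pr.k / 2 - 1) * (Pr.k * Pr.Vm)))
        (fun z => RR z ^ (Pr.k / 2 - 1) * ((Pr.k + 1) * Pr.M * √(YY z)))
        (cz.mul ((cR _ (by linarith)).mul continuous_const))
        ((cR _ (by linarith)).mul (continuous_const.mul
          (Real.continuous_sqrt.comp continuous_YY))) ?_ ?_
      · rw [← hY]
        simp
      · filter_upwards [(continuous_coord 0).continuousAt.eventually_lt_const hX] with z hz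
        exact pd_near_m Pr hz j
    · have h0 := eq_zero_of hX hY.symm
      refine sq (fun _ => 0)
        (fun z => (Pr.M + Pr.k * |Pr.Vp| + Pr.k * |Pr.Vm|) * RR z ^ ((Pr.k - 1) / 2))
        continuous_const (continuous_const.mul (cR _ (by linarith))) ?_ ?_
      · rw [h0, ← norm_sq, norm_zero]
        rw [show (0 : ℝ) ^ 2 = 0 by norm_num, Real.zero_rpow (by linarith), mul_zero]
      · filter_upwards with z
        rw [sub_zero]
        exact pd_bound Pr z j
    · refine sq (fun z => z j * (RR z ^ (Pr.k / 2 - 1) * (Pr.k * Pr.Vp)))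
        (fun z => RR z ^ (Pr.k / 2 - 1) * ((Pr.k + 1) * Pr.M * √(YY z)))
        (cz.mul ((cR _ (by linarith)).mul continuous_const))
        ((cR _ (by linarith)).mul (continuous_const.mul
          (Real.continuous_sqrt.comp continuous_YY))) ?_ ?_
      · rw [← hY]
        simp
      · filter_upwards [(continuous_coord 0).continuousAt.eventually_const_lt hX] with z hz
        exact pd_near_p Pr hz j
  · have hU : z₀ ∈ UU := hY
    have ct : ContinuousAt tt z₀ := (hasFDerivAt_tt hU).continuousAt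
    have cV : Continuous Pr.V :=
      continuous_iff_continuousAt.mpr fun t => (Pr.dV t).continuousAt
    have c1 : ContinuousAt (fun z => Pr.V (tt z)) z₀ := cV.continuousAt.comp ct
    have c2 : ContinuousAt (fun z => Pr.β (tt z)) z₀ := Pr.βc.continuousAt.comp ct
    have c3 : ContinuousAt (fun z => Real.tanh (tt z)) z₀ :=
      (Pool.Agent.Helper749.ConeFun.continuous_tanh).continuousAt.comp ct
    have c4 : ContinuousAt (fun z : E => z 0) z₀ := (continuous_coord 0).continuousAt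
    by_cases hj : j = 0
    · subst hj
      have e : pd 0 (uu Pr) =ᶠ[𝓝 z₀] fun z => RR z ^ (Pr.k / 2 - 1)
          * (Pr.k * z 0 * Pr.V (tt z) + Pr.β (tt z) * YY z / √(RR z)) := by
        filter_upwards [isOpen_UU.mem_nhds hU] with z hz
        rw [pd_uu_zero Pr hz]
      refine ContinuousAt.congr ?_ e.symm
      refine (cR _ (by linarith)).continuousAt.mul (((continuousAt_const.mul c4).mul c1).add ?_)
      refine (c2.mul continuous_YY.continuousAt).div
        (Real.continuous_sqrt.comp continuous_RR).continuousAt (sqrt_pos hU).ne'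
    · have e : pd j (uu Pr) =ᶠ[𝓝 z₀] fun z => z j * (RR z ^ (Pr.k / 2 - 1)
          * (Pr.k * Pr.V (tt z) - Real.tanh (tt z) * Pr.β (tt z))) := by
        filter_upwards [isOpen_UU.mem_nhds hU] with z hz
        rw [pd_uu Pr hz hj]
      refine ContinuousAt.congr ?_ e.symm
      exact cz.continuousAt.mul ((cR _ (by linarith)).continuousAt.mul
        ((continuousAt_const.mul c1).sub (c3.mul c2)))

lemma continuous_GG : Continuous (GG Pr) := by
  unfold GG
  exact (PiLp.continuous_toLp 2 _).comp (continuous_pi fun j => continuous_pd_uu Pr j)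

/-! ### homogeneity -/

lemma YY_smul (t : ℝ) (z : E) : YY (t • z) = t ^ 2 * YY z := by
  unfold YY
  simp only [PiLp.smul_apply, smul_eq_mul]
  ring

lemma RR_smul (t : ℝ) (z : E) : RR (t • z) = t ^ 2 * RR z := by
  unfold RR
  rw [YY_smul]
  simp only [PiLp.smul_apply, smul_eq_mul]
  ring

lemma tt_smul {t : ℝ} (ht : 0 < t) {z : E} (hz : z ∈ UU) : tt (t • z) = tt z := by
  have hY : 0 < YY z := hz
  have ht2 : (t ^ 2) ≠ 0 := by positivity
  have ha := add_sqrt_pos hz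
  unfold tt
  rw [YY_smul, RR_smul, Real.sqrt_mul (sq_nonneg t), Real.sqrt_sq ht.le, PiLp.smul_apply,
    smul_eq_mul, ← mul_add, Real.log_mul ht.ne' ha.ne', Real.log_mul ht2 hY.ne', Real.log_pow]
  push_cast
  ring

lemma rpow_sq {t : ℝ} (ht : 0 < t) (s : ℝ) : (t ^ 2) ^ (s / 2) = t ^ s := by
  rw [← Real.rpow_natCast t 2, ← Real.rpow_mul ht.le]
  congr 1
  push_cast
  ring

lemma uu_smul {t : ℝ} (ht : 0 < t) (z : E) : uu Pr (t • z) = t ^ Pr.k * uu Pr z := by
  have ht2 : 0 < t ^ 2 := by positivity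
  have hR : RR (t • z) ^ (Pr.k / 2) = t ^ Pr.k * RR z ^ (Pr.k / 2) := by
    rw [RR_smul, Real.mul_rpow ht2.le (RR_nonneg z), rpow_sq ht]
  by_cases hY : YY z = 0
  · have hY2 : YY (t • z) = 0 := by rw [YY_smul, hY, mul_zero]
    have h0 : (0 ≤ (t • z) 0) ↔ 0 ≤ z 0 := by
      rw [PiLp.smul_apply, smul_eq_mul]
      exact mul_nonneg_iff_of_pos_left ht
    unfold uu
    rw [if_pos hY, if_pos hY2, hR]
    simp only [h0]
    ring
  · have hU : z ∈ UU := lt_of_le_of_ne (YY_nonneg z) (Ne.symm hY)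
    have hU2 : t • z ∈ UU := by
      change 0 < YY (t • z)
      rw [YY_smul]
      exact mul_pos ht2 hU
    rw [uu_UU Pr hU, uu_UU Pr hU2]
    unfold bb
    rw [hR, tt_smul ht hU]
    ring

lemma pd_smul {t : ℝ} (ht : 0 < t) (z : E) (j : Fin 3) :
    pd j (uu Pr) (t • z) = t ^ (Pr.k - 1) * pd j (uu Pr) z := by
  have h1 : HasFDerivAt (fun z : E => t • z) (t • ContinuousLinearMap.id ℝ E) z :=
    (hasFDerivAt_id z).const_smul t
  have h2 : HasFDerivAt (fun z : E => uu Pr (t • z))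
      ((fderiv ℝ (uu Pr) (t • z)).comp (t • ContinuousLinearMap.id ℝ E)) z :=
    (differentiable_uu Pr (t • z)).hasFDerivAt.comp z h1
  have h3 : HasFDerivAt (fun z : E => uu Pr (t • z)) (t ^ Pr.k • fderiv ℝ (uu Pr) z) z := by
    have e : (fun z : E => uu Pr (t • z)) = fun z => t ^ Pr.k * uu Pr z :=
      funext fun z => uu_smul Pr ht z
    rw [e]
    exact (differentiable_uu Pr z).hasFDerivAt.const_mul _
  have h4 := h2.unique h3
  have h5 := congrArg (fun L : E →L[ℝ] ℝ => L (EuclideanSpace.single j 1)) h4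
  simp only [ContinuousLinearMap.comp_apply, _root_.smul_apply, ContinuousLinearMap.id_apply,
    map_smul, smul_eq_mul] at h5
  unfold pd
  have e : t ^ Pr.k = t * t ^ (Pr.k - 1) := by
    rw [Real.rpow_sub_one ht.ne']
    field_simp
  rw [e, mul_assoc] at h5
  exact mul_left_cancel₀ ht.ne' h5

lemma GG_smul {t : ℝ} (ht : 0 < t) (z : E) : GG Pr (t • z) = t ^ (Pr.k - 1) • GG Pr z := by
  ext j
  rw [PiLp.smul_apply, GG_apply, GG_apply, pd_smul Pr ht, smul_eq_mul]

lemma GG_zero : GG Pr (0 : E) = 0 := by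
  ext j
  rw [GG_apply, pd_zero]
  rfl

end Pool.Agent.H230.C3.Grad
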