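import Pool.Agent.H230.C3.Sol

/-!
The weak equation on `R x R^2`.
-/

set_option autoImplicit false

namespace Pool.Agent.H230.C3.Int

open Set Filter Topology MeasureTheory
open Pool.Agent.Helper749.ConeFun (hasDerivAt_tanh continuous_tanh)
open Pool.Agent.Helper749.ConeOde (abs_tanh_le)
open Pool.Agent.Helper749.PReg
open Pool.Agent.H230.C3.Ode Pool.Agent.H230.C3.Fun Pool.Agent.H230.C3.Geo
open Pool.Agent.H230.C3.Sol
open scoped ContDiff

variable {μ : ℝ} (Pr : Prof μ)

lemma continuous_uu : Continuous (uu Pr) := (differentiable_uu Pr).continuous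

lemma continuous_RRpow {s : ℝ} (hs : 0 ≤ s) : Continuous fun z : E => RR z ^ s :=
  continuous_RR.rpow_const fun _ => Or.inr hs

lemma integrable_of_le {h c : E → ℝ} (hm : Measurable h) (hc : Continuous c)
    (hs : HasCompactSupport c) (hle : ∀ᵐ z, |h z| ≤ c z) : Integrable h := by
  refine (hc.integrable_of_hasCompactSupport hs).mono' hm.aestronglyMeasurable ?_
  filter_upwards [hle] with z hz
  exact hz

lemma measurable_GG (i : Fin 3) : Measurable fun z => GG Pr z i :=
  measurable_fderiv_apply_const ℝ (uu Pr) (EuclideanSpace.single i 1)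

lemma GG_le : ∀ᵐ z, ∀ i, |GG Pr z i| ≤ Pr.M * RR z ^ ((Pr.k - 1) / 2) := by
  filter_upwards [ae_UU] with z hz i
  have h1 : ‖GG Pr z i‖ ≤ ‖GG Pr z‖ := PiLp.norm_apply_le _ i
  rw [norm_GG Pr hz, Real.norm_eq_abs] at h1
  refine h1.trans ?_
  rw [mul_comm]
  exact mul_le_mul_of_nonneg_right (Pr.ρM _) (Real.rpow_nonneg (RR_nonneg z) _)

lemma continuous_pd {φ : E → ℝ} (h : ContDiff ℝ ∞ φ) (i : Fin 3) : Continuous (pd i φ) := by
  unfold pd
  exact (h.continuous_fderiv (by simp)).clm_apply continuous_const

lemma hasCompactSupport_pd {φ : E → ℝ} (h : HasCompactSupport φ) (i : Fin 3) :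
    HasCompactSupport (pd i φ) := by
  have := h.fderiv (𝕜 := ℝ)
  refine this.comp_left (g := fun L : E →L[ℝ] ℝ => L (EuclideanSpace.single i 1)) ?_
  simp

lemma isWeakGrad_uu : IsWeakGrad univ (uu Pr) (GG Pr) := by
  intro φ hφ i
  obtain ⟨h1, h2, -⟩ := hφ
  have hk := Pr.hk2
  rw [Measure.restrict_univ]
  have hcφ : Continuous φ := h1.continuous
  have e := integral_mul_fderiv_eq_neg_fderiv_mul_of_integrable (μ := (volume : Measure E))
    (f := uu Pr) (g := φ) (v := EuclideanSpace.single i 1) ?_ ?_ ?_ ?_ ?_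
  · exact e
  · refine integrable_of_le (h := fun z => GG Pr z i * φ z)
      (c := fun z => Pr.M * RR z ^ ((Pr.k - 1) / 2) * |φ z|)
      ((measurable_GG Pr i).mul hcφ.measurable) ?_ ?_ ?_
    · exact (continuous_const.mul (continuous_RRpow (by linarith))).mul hcφ.abs
    · exact HasCompactSupport.mul_left (h2.comp_left (g := abs) (by simp))
    · filter_upwards [GG_le Pr] with z hz
      rw [abs_mul]
      exact mul_le_mul_of_nonneg_right (hz i) (abs_nonneg _)
  · exact ((continuous_uu Pr).mul (continuous_pd h1 i)).integrable_of_hasCompactSupport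
      (HasCompactSupport.mul_left (hasCompactSupport_pd h2 i))
  · exact ((continuous_uu Pr).mul hcφ).integrable_of_hasCompactSupport
      (HasCompactSupport.mul_left h2)
  · exact fun x _ => differentiable_uu Pr x
  · exact fun x _ => h1.differentiable (by simp) x

lemma contDiff_coord (i : Fin 3) : ContDiff ℝ ∞ (fun z : E => z i) :=
  (EuclideanSpace.proj i : E →L[ℝ] ℝ).contDiff

lemma contDiff_YY : ContDiff ℝ ∞ YY :=
  ((contDiff_coord 1).pow 2).add ((contDiff_coord 2).pow 2)

lemma contDiff_RR : ContDiff ℝ ∞ RR := ((contDiff_coord 0).pow 2).add contDiff_YY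

lemma contDiffAt_tt {z : E} (hz : z ∈ UU) : ContDiffAt ℝ 1 tt z := by
  have hR : ContDiffAt ℝ 1 RR z := (contDiff_RR.of_le (by simp)).contDiffAt
  have hY : ContDiffAt ℝ 1 YY z := (contDiff_YY.of_le (by simp)).contDiffAt
  have h0 : ContDiffAt ℝ 1 (fun z : E => z 0) z := ((contDiff_coord 0).of_le (by simp)).contDiffAt
  have hYp : 0 < YY z := hz
  exact ((h0.add (hR.sqrt (RR_pos hz).ne')).log (add_sqrt_pos hz).ne').sub
    ((hY.log hYp.ne').div_const 2)

lemma continuous_A : Continuous Pr.A :=
  continuous_iff_continuousAt.mpr fun t => (Pr.dA t).continuousAt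

lemma continuous_B : Continuous Pr.B :=
  continuous_iff_continuousAt.mpr fun t => (Pr.dB t).continuousAt

lemma contDiff_ca : ContDiff ℝ 1 (ca Pr) := by
  rw [contDiff_one_iff_deriv]
  refine ⟨fun t => (hasDerivAt_ca Pr t).differentiableAt, ?_⟩
  have : deriv (ca Pr) = ca' Pr := funext fun t => (hasDerivAt_ca Pr t).deriv
  rw [this]
  unfold ca'
  have hT := continuous_tanh
  have hA := continuous_A Pr
  have hB := continuous_B Pr
  have hA' := Pr.cA'
  fun_prop

lemma contDiff_cb : ContDiff ℝ 1 (cb Pr) := by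
  rw [contDiff_one_iff_deriv]
  refine ⟨fun t => (hasDerivAt_cb Pr t).differentiableAt, ?_⟩
  have : deriv (cb Pr) = cb' Pr := funext fun t => (hasDerivAt_cb Pr t).deriv
  rw [this]
  unfold cb'
  have hT := continuous_tanh
  have hA := continuous_A Pr
  have hB := continuous_B Pr
  have hA' := Pr.cA'
  fun_prop

lemma contDiffOn_bb (s : ℝ) {c : ℝ → ℝ} (hc : ContDiff ℝ 1 c) {z : E} (hz : z ∈ UU) :
    ContDiffAt ℝ 1 (bb s c) z := by
  unfold bb
  have h2 : ContDiffAt ℝ 1 (fun z : E => RR z ^ s) z :=
    ((contDiff_RR.of_le (by simp)).contDiffAt).rpow_const_of_ne (RR_pos hz).ne'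
  have h3 : ContDiffAt ℝ 1 (fun z : E => c (tt z)) z :=
    hc.contDiffAt.comp z (contDiffAt_tt hz)
  exact h2.mul h3

lemma contDiffOn_FF (j : Fin 3) : ContDiffOn ℝ 1 (FF Pr j) UU := by
  intro z hz
  apply ContDiffAt.contDiffWithinAt
  by_cases hj : j = 0
  · subst hj
    rw [FF_zero]
    exact contDiffOn_bb _ (contDiff_ca Pr) hz
  · rw [FF_ne Pr hj]
    exact ((contDiff_coord j).of_le (by simp)).contDiffAt.mul (contDiffOn_bb _ (contDiff_cb Pr) hz)

lemma continuous_mul_of_supp {h ψ : E → ℝ} (hh : ContinuousOn h UU) (hψ : Continuous ψ)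
    (hs : tsupport ψ ⊆ UU) : Continuous fun z => h z * ψ z := by
  apply continuous_of_tsupport
  intro z hz
  have hz2 : z ∈ tsupport ψ := by
    refine closure_mono ?_ hz
    intro w hw
    simp only [Function.mem_support, ne_eq] at hw ⊢
    exact fun h0 => hw (by rw [h0, mul_zero])
  exact (hh.continuousAt (isOpen_UU.mem_nhds (hs hz2))).mul hψ.continuousAt

/-- The weak equation for test functions supported away from the axis. -/
lemma weak_away {ψ : E → ℝ} (h1 : ContDiff ℝ ∞ ψ) (h2 : HasCompactSupport ψ)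
    (h3 : tsupport ψ ⊆ UU) : ∫ z, ∑ j, FF Pr j z * pd j ψ z = 0 := by
  have hcψ : Continuous ψ := h1.continuous
  have hsup : ∀ j, tsupport (pd j ψ) ⊆ UU := by
    intro j
    refine Subset.trans ?_ h3
    have h5 : Function.support (pd j ψ) ⊆ tsupport ψ := by
      intro w hw
      have h6 : fderiv ℝ ψ w ≠ 0 := by
        intro h0
        apply hw
        unfold pd
        rw [h0]
        simp
      exact support_fderiv_subset ℝ h6
    exact closure_minimal h5 (isClosed_tsupport ψ)
  have hFc : ∀ j, ContinuousOn (FF Pr j) UU := fun j => (contDiffOn_FF Pr j).continuousOn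
  have hdFc : ∀ j, ContinuousOn (pd j (FF Pr j)) UU := by
    intro j
    have := (contDiffOn_FF Pr j).continuousOn_fderiv_of_isOpen isOpen_UU le_rfl
    exact this.clm_apply continuousOn_const
  have i1 : ∀ j, Integrable fun z => FF Pr j z * pd j ψ z := fun j =>
    (continuous_mul_of_supp (hFc j) (continuous_pd h1 j)
      (hsup j)).integrable_of_hasCompactSupport (HasCompactSupport.mul_left (hasCompactSupport_pd h2 j))
  have i2 : ∀ j, Integrable fun z => pd j (FF Pr j) z * ψ z := fun j =>
    (continuous_mul_of_supp (hdFc j) hcψ h3).integrable_of_hasCompactSupport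
      (HasCompactSupport.mul_left h2)
  have i3 : ∀ j, Integrable fun z => FF Pr j z * ψ z := fun j =>
    (continuous_mul_of_supp (hFc j) hcψ h3).integrable_of_hasCompactSupport
      (HasCompactSupport.mul_left h2)
  have ibp : ∀ j, ∫ z, FF Pr j z * pd j ψ z = -∫ z, pd j (FF Pr j) z * ψ z := by
    intro j
    exact integral_mul_fderiv_eq_neg_fderiv_mul_of_integrable (μ := (volume : Measure E))
      (f := FF Pr j) (g := ψ) (v := EuclideanSpace.single j 1) (i2 j) (i1 j) (i3 j)
      (fun x hx => ((contDiffOn_FF Pr j).differentiableOn (by simp)).differentiableAt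
        (isOpen_UU.mem_nhds (h3 hx)))
      (fun x _ => h1.differentiable (by simp) x)
  rw [integral_finsetSum _ (fun j _ => i1 j)]
  simp only [ibp]
  rw [Finset.sum_neg_distrib, ← integral_finsetSum _ (fun j _ => i2 j), neg_eq_zero]
  have : (fun z => ∑ j, pd j (FF Pr j) z * ψ z) = fun _ => 0 := by
    ext z
    rw [← Finset.sum_mul]
    by_cases hz : z ∈ UU
    · rw [div_zero Pr hz, zero_mul]
    · have : ψ z = 0 := by
        by_contra h0
        exact hz (h3 (subset_tsupport ψ h0))
      rw [this, mul_zero]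
  rw [this, integral_zero]

/-- The cutoff. -/
noncomputable def chi (n : ℝ) (z : E) : ℝ := Real.smoothTransition (n * YY z - 1)

lemma exists_bound_transition :
    ∃ D : ℝ, 0 ≤ D ∧ ∀ s : ℝ, |s * deriv Real.smoothTransition (s - 1)| ≤ D := by
  have hc : Continuous (deriv Real.smoothTransition) :=
    (Real.smoothTransition.contDiff (n := 1)).continuous_deriv le_rfl
  have hzero : ∀ x, x ∉ Icc (0:ℝ) 1 → deriv Real.smoothTransition x = 0 := by
    intro x hx
    rw [mem_Icc, not_and_or, not_le, not_le] at hx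
    rcases hx with h | h
    · have : Real.smoothTransition =ᶠ[𝓝 x] fun _ => 0 := by
        filter_upwards [Iio_mem_nhds h] with y hy
        exact Real.smoothTransition.zero_of_nonpos (le_of_lt hy)
      rw [this.deriv_eq]
      simp
    · have : Real.smoothTransition =ᶠ[𝓝 x] fun _ => 1 := by
        filter_upwards [Ioi_mem_nhds h] with y hy
        exact Real.smoothTransition.one_of_one_le (le_of_lt hy)
      rw [this.deriv_eq]
      simp
  have hcont : Continuous fun s : ℝ => s * deriv Real.smoothTransition (s - 1) :=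
    continuous_id.mul (hc.comp (continuous_id.sub continuous_const))
  have hsupp : HasCompactSupport fun s : ℝ => s * deriv Real.smoothTransition (s - 1) := by
    apply HasCompactSupport.intro (isCompact_Icc (a := (1:ℝ)) (b := 2))
    intro x hx
    rw [hzero, mul_zero]
    intro h
    apply hx
    constructor <;> linarith [h.1, h.2]
  obtain ⟨C, hC⟩ := hcont.bounded_above_of_compact_support hsupp
  refine ⟨C, (norm_nonneg _).trans (hC 0), fun s => ?_⟩
  have := hC s
  rwa [Real.norm_eq_abs] at this

lemma contDiff_chi (n : ℝ) : ContDiff ℝ ∞ (chi n) := by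
  unfold chi
  refine (Real.smoothTransition.contDiff (n := ⊤)).comp ?_
  exact (contDiff_const.mul contDiff_YY).sub contDiff_const

lemma pd_chi (n : ℝ) (z : E) (j : Fin 3) :
    pd j (chi n) z = deriv Real.smoothTransition (n * YY z - 1) * (n * (2 * z j * cY j)) := by
  have h1 : HasFDerivAt (fun z => n * YY z - 1) (n • dYY z) z :=
    ((hasFDerivAt_YY z).const_mul n).sub_const 1
  have h2 : HasDerivAt Real.smoothTransition
      (deriv Real.smoothTransition (n * YY z - 1)) (n * YY z - 1) :=
    ((Real.smoothTransition.contDiff (n := 1)).differentiable (by simp) _).hasDerivAt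
  have h3 := h2.comp_hasFDerivAt z h1
  unfold pd
  have h4 : fderiv ℝ (chi n) z = _ := h3.fderiv
  rw [h4]
  simp only [_root_.smul_apply, smul_eq_mul, dYY_single]

lemma tsupport_chi (n : ℝ) : tsupport (chi n) ⊆ UU := by
  have h1 : Function.support (chi n) ⊆ {z : E | 1 ≤ n * YY z} := by
    intro z hz
    by_contra h
    simp only [mem_ofPred_eq, not_le] at h
    apply hz
    exact Real.smoothTransition.zero_of_nonpos (by linarith)
  have h2 : IsClosed {z : E | 1 ≤ n * YY z} :=
    isClosed_le continuous_const (continuous_const.mul continuous_YY)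
  refine (closure_minimal h1 h2).trans ?_
  intro z hz
  simp only [mem_ofPred_eq] at hz
  have h4 := YY_nonneg z
  rcases h4.eq_or_lt with h | h
  · rw [← h] at hz
    norm_num at hz
  · exact h

lemma flux_chi (z : E) (n : ℝ) :
    ∑ j, FF Pr j z * pd j (chi n) z
      = (n * YY z) * deriv Real.smoothTransition (n * YY z - 1)
        * (RR z ^ ee Pr * (2 * cb Pr (tt z))) := by
  rw [Fin.sum_univ_three]
  simp only [pd_chi, FF_ne Pr (j := 1) (by decide), FF_ne Pr (j := 2) (by decide), cY]
  unfold bb YY
  simp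
  ring

lemma measurable_bb (s : ℝ) {c : ℝ → ℝ} (hc : Continuous c) : Measurable (bb s c) := by
  unfold bb tt
  have h2 : Measurable fun z : E => RR z ^ s := continuous_RR.measurable.pow_const _
  have h3 : Measurable fun z : E => Real.log (z 0 + √(RR z)) - Real.log (YY z) / 2 :=
    (Real.measurable_log.comp ((continuous_coord 0).add
      (Real.continuous_sqrt.comp continuous_RR)).measurable).sub
      ((Real.measurable_log.comp continuous_YY.measurable).div_const 2)
  exact h2.mul (hc.measurable.comp h3)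

lemma measurable_FF (j : Fin 3) : Measurable (FF Pr j) := by
  by_cases hj : j = 0
  · subst hj
    rw [FF_zero]
    exact measurable_bb _ (contDiff_ca Pr).continuous
  · rw [FF_ne Pr hj]
    exact (continuous_coord j).measurable.mul (measurable_bb _ (contDiff_cb Pr).continuous)

lemma locallyIntegrable_RR : LocallyIntegrable (fun z : E => RR z ^ ee Pr) := by
  have hk2 := Pr.hk2
  have hk3 := Pr.hk3
  have h0 := Pr.hμ0
  have h1 := Pr.hμ1
  refine locallyIntegrable_of_norm_le_rpow (C := 1) (α := -(2 * ee Pr)) ?_ ?_ ?_ ?_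
  · simp
  · have h6 : 0 < (Pr.k - 1) * μ := mul_pos (by linarith) h0
    unfold ee
    simp
    linarith
  · filter_upwards with z
    rw [neg_neg, one_mul, Real.norm_eq_abs, abs_of_nonneg (Real.rpow_nonneg (RR_nonneg z) _),
      ← norm_sq, ← Real.rpow_natCast_mul (norm_nonneg z)]
    norm_num
  · exact (continuous_RR.measurable.pow_const _).aestronglyMeasurable

lemma ef_pos : 0 < ef Pr := by
  have hk2 := Pr.hk2
  have h0 := Pr.hμ0
  unfold ef
  have : 0 < (Pr.k - 1) * μ := mul_pos (by linarith) h0
  linarith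

/-- The weak equation for the flux. -/
theorem weak_FF {φ : E → ℝ} (h1 : ContDiff ℝ ∞ φ) (h2 : HasCompactSupport φ) :
    ∫ z, ∑ j, FF Pr j z * pd j φ z = 0 := by
  have hk2 := Pr.hk2
  have h0 := Pr.hμ0
  have hM := Pr.hM
  obtain ⟨D, hD0, hD⟩ := exists_bound_transition
  have hcφ : Continuous φ := h1.continuous
  -- the truncated test functions
  set ψ : ℕ → E → ℝ := fun n z => φ z * chi ((n : ℝ) + 1) z with hψ
  have hψ1 : ∀ n, ContDiff ℝ ∞ (ψ n) := fun n => h1.mul (contDiff_chi _)
  have hψ2 : ∀ n, HasCompactSupport (ψ n) := fun n => h2.mul_right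
  have hψ3 : ∀ n, tsupport (ψ n) ⊆ UU := by
    intro n
    refine Subset.trans ?_ (tsupport_chi ((n : ℝ) + 1))
    apply closure_mono
    intro w hw
    simp only [hψ, Function.mem_support, ne_eq] at hw ⊢
    exact fun h0 => hw (by rw [h0, mul_zero])
  have hzero : ∀ n, ∫ z, ∑ j, FF Pr j z * pd j (ψ n) z = 0 :=
    fun n => weak_away Pr (hψ1 n) (hψ2 n) (hψ3 n)
  have hpd : ∀ n z j, pd j (ψ n) z = φ z * pd j (chi ((n : ℝ) + 1)) z
      + chi ((n : ℝ) + 1) z * pd j φ z := by
    intro n z j
    have e1 : DifferentiableAt ℝ φ z := h1.differentiable (by simp) z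
    have e2 : DifferentiableAt ℝ (chi ((n : ℝ) + 1)) z :=
      (contDiff_chi _).differentiable (by simp) z
    have e3 := (e1.hasFDerivAt.mul e2.hasFDerivAt).fderiv
    unfold pd
    have e4 : fderiv ℝ (ψ n) z = φ z • fderiv ℝ (chi ((n : ℝ) + 1)) z
      + chi ((n : ℝ) + 1) z • fderiv ℝ φ z := e3
    rw [e4]
    simp
  have hsplit : ∀ n z, ∑ j, FF Pr j z * pd j (ψ n) z
      = φ z * ∑ j, FF Pr j z * pd j (chi ((n : ℝ) + 1)) z
        + chi ((n : ℝ) + 1) z * ∑ j, FF Pr j z * pd j φ z := by
    intro n z
    rw [Finset.mul_sum, Finset.mul_sum, ← Finset.sum_add_distrib]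
    apply Finset.sum_congr rfl
    intro j _
    rw [hpd]
    ring
  -- dominated convergence
  have hlim : Tendsto (fun n : ℕ => ∫ z, ∑ j, FF Pr j z * pd j (ψ n) z) atTop
      (𝓝 (∫ z, ∑ j, FF Pr j z * pd j φ z)) := by
    refine tendsto_integral_of_dominated_convergence
      (fun z => |φ z| * (D * 8 * Pr.M * RR z ^ ee Pr)
        + ∑ j, (3 * Pr.M * RR z ^ (ef Pr)) * |pd j φ z|) ?_ ?_ ?_ ?_
    · intro n
      exact (Finset.measurable_sum _ fun j _ =>
        (measurable_FF Pr j).mul (continuous_pd (hψ1 n) j).measurable).aestronglyMeasurable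
    · refine Integrable.add ?_ ?_
      · have hL : LocallyIntegrable (fun z : E => D * 8 * Pr.M * RR z ^ ee Pr) :=
          (locallyIntegrable_RR Pr).smul (D * 8 * Pr.M)
        exact hL.integrable_smul_left_of_hasCompactSupport hcφ.abs
          (h2.comp_left (g := abs) (by simp))
      · apply integrable_finsetSum
        intro j _
        refine Continuous.integrable_of_hasCompactSupport ?_ ?_
        · exact (continuous_const.mul (continuous_RRpow (ef_pos Pr).le)).mul
            (continuous_pd h1 j).abs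
        · exact HasCompactSupport.mul_left ((hasCompactSupport_pd h2 j).comp_left (g := abs) (by simp))
    · intro n
      filter_upwards [ae_UU] with z hz
      rw [hsplit, Real.norm_eq_abs]
      refine (abs_add_le _ _).trans (add_le_add ?_ ?_)
      · rw [abs_mul]
        apply mul_le_mul_of_nonneg_left _ (abs_nonneg _)
        rw [flux_chi Pr z, abs_mul, abs_mul (RR z ^ ee Pr),
          abs_of_nonneg (Real.rpow_nonneg (RR_nonneg z) _)]
        have b1 := hD (((n : ℝ) + 1) * YY z)
        have b2 : |2 * cb Pr (tt z)| ≤ 8 * Pr.M := by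
          rw [abs_mul, abs_of_pos (by norm_num : (0:ℝ) < 2)]
          have c1 : |cb Pr (tt z)|
              ≤ |Pr.A (tt z)| + |Real.tanh (tt z) * Pr.B (tt z)| := abs_sub _ _
          rw [abs_mul] at c1
          have c2 := Pr.AM (tt z)
          have c3 := Pr.BM (tt z)
          have c4 := abs_tanh_le (tt z)
          have c5 : |Real.tanh (tt z)| * |Pr.B (tt z)| ≤ 1 * Pr.M :=
            mul_le_mul c4 c3 (abs_nonneg _) (by norm_num)
          linarith
        have hR := Real.rpow_nonneg (RR_nonneg z) (ee Pr)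
        calc |(((n : ℝ) + 1) * YY z)
                * deriv Real.smoothTransition (((n : ℝ) + 1) * YY z - 1)|
              * (RR z ^ ee Pr * |2 * cb Pr (tt z)|)
            ≤ D * (RR z ^ ee Pr * (8 * Pr.M)) := by gcongr
          _ = D * 8 * Pr.M * RR z ^ ee Pr := by ring
      · rw [abs_mul]
        have d1 : |chi ((n : ℝ) + 1) z| ≤ 1 := by
          unfold chi
          rw [abs_of_nonneg (Real.smoothTransition.nonneg _)]
          exact Real.smoothTransition.le_one _
        have d2 : |∑ j, FF Pr j z * pd j φ z|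
            ≤ ∑ j, (3 * Pr.M * RR z ^ (ef Pr)) * |pd j φ z| := by
          refine (Finset.abs_sum_le_sum_abs _ _).trans ?_
          apply Finset.sum_le_sum
          intro j _
          rw [abs_mul]
          exact mul_le_mul_of_nonneg_right (FF_bound Pr hz j) (abs_nonneg _)
        calc _ ≤ 1 * |∑ j, FF Pr j z * pd j φ z| :=
              mul_le_mul_of_nonneg_right d1 (abs_nonneg _)
          _ = |∑ j, FF Pr j z * pd j φ z| := one_mul _
          _ ≤ _ := d2
    · filter_upwards [ae_UU] with z hz
      have hY : 0 < YY z := hz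
      have hev : ∀ᶠ n : ℕ in atTop, 2 < ((n : ℝ) + 1) * YY z := by
        have h5 : Tendsto (fun n : ℕ => ((n : ℝ) + 1) * YY z) atTop atTop :=
          (tendsto_atTop_add_const_right _ 1 tendsto_natCast_atTop_atTop).atTop_mul_const hY
        exact h5.eventually_gt_atTop 2
      refine tendsto_const_nhds.congr' ?_
      filter_upwards [hev] with n hn
      rw [hsplit, flux_chi Pr z]
      have e1 : chi ((n : ℝ) + 1) z = 1 :=
        Real.smoothTransition.one_of_one_le (by linarith)
      have e2 : deriv Real.smoothTransition (((n : ℝ) + 1) * YY z - 1) = 0 := by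
        have : Real.smoothTransition =ᶠ[𝓝 (((n : ℝ) + 1) * YY z - 1)] fun _ => 1 := by
          filter_upwards [Ioi_mem_nhds (show 1 < ((n : ℝ) + 1) * YY z - 1 by linarith)]
            with y hy
          exact Real.smoothTransition.one_of_one_le (le_of_lt hy)
        rw [this.deriv_eq]
        simp
      rw [e1, e2]
      ring
  simp only [hzero] at hlim
  exact (tendsto_nhds_unique hlim tendsto_const_nhds)

end Pool.Agent.H230.C3.Int
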