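import Pool.Agent.H230.C3.Geo

/-!
The homogeneous axially symmetric `p`-harmonic function on `R x R^2`.
-/

set_option autoImplicit false

namespace Pool.Agent.H230.C3.Sol

open Set Filter Topology MeasureTheory
open Pool.Agent.Helper749.ConeFun (hasDerivAt_tanh continuous_tanh)
open Pool.Agent.Helper749.PReg
open Pool.Agent.H230.C3.Ode Pool.Agent.H230.C3.Fun Pool.Agent.H230.C3.Geo
open scoped ContDiff

/-- All data of the profile. -/
structure Prof (μ : ℝ) where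
  k : ℝ
  m0 : ℝ
  M : ℝ
  Vp : ℝ
  Vm : ℝ
  V : ℝ → ℝ
  β : ℝ → ℝ
  A : ℝ → ℝ
  B : ℝ → ℝ
  A' : ℝ → ℝ
  ρ : ℝ → ℝ
  hμ0 : 0 < μ
  hμ1 : μ < 1
  hk2 : 2 < k
  hk3 : k ≤ 3
  hm0 : 0 < m0
  hM : 0 < M
  hVp : 0 < Vp
  dV : ∀ t, HasDerivAt V (β t / Real.cosh t ^ 2) t
  dA : ∀ t, HasDerivAt A (A' t) t
  cA' : Continuous A'
  dB : ∀ t, HasDerivAt B (2 * Real.tanh t * B t - ((k - 1) * μ + 2) * A t) t
  hρ : ∀ t, (k * V t) ^ 2 + β t ^ 2 / Real.cosh t ^ 2 = ρ t ^ 2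
  ρpos : ∀ t, 0 < ρ t
  ρM : ∀ t, ρ t ≤ M
  ρm : ∀ t, m0 ≤ ρ t
  ρc : Continuous ρ
  hA : ∀ t, A t = ρ t ^ (μ - 1) * (k * V t)
  hB : ∀ t, B t = ρ t ^ (μ - 1) * β t
  VM : ∀ t, |V t| ≤ M
  AM : ∀ t, |A t| ≤ M
  BM : ∀ t, |B t| ≤ M
  βM : ∀ t, |β t| ≤ M
  βc : Continuous β
  limp : ∀ t, |V t - Vp| ≤ M * (1 - Real.tanh t)
  limm : ∀ t, |V t - Vm| ≤ M * (1 + Real.tanh t)

theorem exists_prof {μ k1 k2 : ℝ} (h0 : 0 < μ) (h1 : μ < 1) (hk1 : 2 < k1)
    (hk12 : k1 ≤ k2) (hk23 : k2 ≤ 5 / 2)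
    {a0 a1 a2 b1 b2 : ℝ} (hb1 : 0 ≤ b1) (hb2 : 0 ≤ b2)
    (hlow : ∀ T, 0 ≤ T → PQ μ ((k1 - 1) * μ) a0 a1 a2 b1 b2 T ≤ 0)
    {n0 n1 n2 m1 m2 : ℝ} (hm1 : 0 ≤ m1) (hm2 : 0 ≤ m2)
    (hup : ∀ T, 0 ≤ T → 0 ≤ PQ μ ((k2 - 1) * μ) n0 n1 n2 m1 m2 T)
    (c0 : 1 ≤ n0) (c1 : m1 ≤ n1) (c2 : m2 ≤ n2) :
    ∃ Pr : Prof μ, k1 ≤ Pr.k ∧ Pr.k ≤ k2 := by
  obtain ⟨k, C, Vp, Vm, P, ℓ, hka, hkb, hC, hVp, hP, hℓ, hℓb, hsb, hp, hm, hV⟩ :=
    profile h0 h1 (by linarith) hk12 hk23 hb1 hb2 hlow hm1 hm2 hup c0 c1 c2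
  have hk2 : 2 < k := by linarith
  have hk3 : k ≤ 3 := by linarith
  have hk0 : 0 < k := by linarith
  have hPc : Continuous P := continuous_iff_continuousAt.mpr fun t => (hP t).continuousAt
  have hℓc : Continuous ℓ := continuous_iff_continuousAt.mpr fun t => (hℓ t).continuousAt
  have hexp : ∀ t, Real.exp (ℓ t) ≤ Real.exp C :=
    fun t => Real.exp_le_exp.mpr ((le_abs_self _).trans (hℓb t))
  have hexpμ : ∀ t, Real.exp (μ * ℓ t) ≤ Real.exp C := by
    intro t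
    apply Real.exp_le_exp.mpr
    have := hℓb t
    rw [abs_le] at this
    nlinarith [this.1, this.2]
  have hCe : 1 ≤ Real.exp C := Real.one_le_exp hC.le
  have hMC : C ≤ Real.exp C * C + C + Real.exp C := by
    have : 0 ≤ Real.exp C * C := by positivity
    linarith [Real.exp_pos C]
  have hM1 : Real.exp C ≤ Real.exp C * C + C + Real.exp C := by
    have : 0 ≤ Real.exp C * C := by positivity
    linarith
  have hM2 : Real.exp C * C ≤ Real.exp C * C + C + Real.exp C := by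
    linarith [Real.exp_pos C]
  refine ⟨{
    k := k
    m0 := Real.exp (-C)
    hm0 := Real.exp_pos _
    ρm := fun t => Real.exp_le_exp.mpr (by have := (abs_le.mp (hℓb t)).1; linarith)
    ρc := Real.continuous_exp.comp hℓc
    M := Real.exp C * C + C + Real.exp C
    Vp := Vp
    Vm := Vm
    V := fun t => Real.exp (ℓ t) * Real.cos (P t) / k
    β := fun t => Real.exp (ℓ t) * Real.sin (P t) * Real.cosh t
    A := fun t => Real.exp (μ * ℓ t) * Real.cos (P t)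
    B := fun t => Real.exp (μ * ℓ t) * Real.sin (P t) * Real.cosh t
    A' := fun t => Real.exp (μ * ℓ t) * (μ * LL μ k t (P t)) * Real.cos (P t)
      + Real.exp (μ * ℓ t) * (-Real.sin (P t) * HH μ k t (P t))
    ρ := fun t => Real.exp (ℓ t)
    hμ0 := h0
    hμ1 := h1
    hk2 := hk2
    hk3 := hk3
    hM := by positivity
    hVp := hVp
    dV := ?_
    dA := ?_
    cA' := ?_
    dB := ?_
    hρ := ?_
    ρpos := fun t => Real.exp_pos _
    ρM := fun t => (hexp t).trans hM1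
    hA := ?_
    hB := ?_
    VM := ?_
    AM := ?_
    BM := ?_
    βM := ?_
    βc := (Real.continuous_exp.comp hℓc |>.mul (Real.continuous_sin.comp hPc)).mul
      Real.continuous_cosh
    limp := ?_
    limm := ?_ }, hka, hkb⟩
  · intro t
    refine (hV t).congr_deriv ?_
    have := Real.cosh_pos t
    field_simp
  · intro t
    exact ((hℓ t).const_mul μ).exp.mul (hP t).cos
  · have c1 := HH_cont (k := k) h0 h1 hPc
    have c2 := LL_cont (k := k) h0 h1 hPc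
    have c3 := Real.continuous_sin.comp hPc
    have c4 := Real.continuous_cos.comp hPc
    have c5 : Continuous fun t => Real.exp (μ * ℓ t) :=
      Real.continuous_exp.comp (continuous_const.mul hℓc)
    exact ((c5.mul (continuous_const.mul c2)).mul c4).add (c5.mul (c3.neg.mul c1))
  · intro t
    refine ((((hℓ t).const_mul μ).exp.mul (hP t).sin).mul (Real.hasDerivAt_cosh t)).congr_deriv ?_
    have h := id_B (k := k) h0 h1 t (P t)
    have hc := Real.cosh_pos t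
    have hT : Real.tanh t * Real.cosh t = Real.sinh t := by
      rw [Real.tanh_eq_sinh_div_cosh]
      field_simp
    have e : (Real.exp (μ * ℓ t) * (μ * LL μ k t (P t)) * Real.sin (P t)
          + Real.exp (μ * ℓ t) * (Real.cos (P t) * HH μ k t (P t))) * Real.cosh t
          + Real.exp (μ * ℓ t) * Real.sin (P t) * Real.sinh t
        = Real.exp (μ * ℓ t) * ((μ * LL μ k t (P t) * Real.sin (P t)
          + Real.cos (P t) * HH μ k t (P t)) * Real.cosh t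
            + Real.sin (P t) * Real.sinh t) := by
      ring
    simp only [Pi.mul_apply]
    rw [e, h, ← hT]
    field_simp
    ring
  · intro t
    have hc := Real.cosh_pos t
    have := Real.sin_sq_add_cos_sq (P t)
    have e : (k * (Real.exp (ℓ t) * Real.cos (P t) / k)) ^ 2
        + (Real.exp (ℓ t) * Real.sin (P t) * Real.cosh t) ^ 2 / Real.cosh t ^ 2
        = Real.exp (ℓ t) ^ 2 * (Real.sin (P t) ^ 2 + Real.cos (P t) ^ 2) := by
      field_simp
      ring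
    rw [e, this, mul_one]
  · intro t
    have e : Real.exp (ℓ t) ^ (μ - 1) * Real.exp (ℓ t) = Real.exp (μ * ℓ t) := by
      rw [← Real.exp_mul, ← Real.exp_add]
      congr 1
      ring
    rw [← e]
    field_simp
  · intro t
    have e : Real.exp (ℓ t) ^ (μ - 1) * Real.exp (ℓ t) = Real.exp (μ * ℓ t) := by
      rw [← Real.exp_mul, ← Real.exp_add]
      congr 1
      ring
    rw [← e]
    ring
  · intro t
    rw [abs_div, abs_mul, abs_of_pos (Real.exp_pos _), abs_of_pos hk0, div_le_iff₀ hk0]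
    have h3 := Real.abs_cos_le_one (P t)
    have h4 := hexp t
    have h5 := Real.exp_pos (ℓ t)
    have h6 : Real.exp (ℓ t) * |Real.cos (P t)| ≤ Real.exp C * 1 :=
      mul_le_mul h4 h3 (abs_nonneg _) (Real.exp_pos _).le
    nlinarith
  · intro t
    rw [abs_mul, abs_of_pos (Real.exp_pos _)]
    have h6 : Real.exp (μ * ℓ t) * |Real.cos (P t)| ≤ Real.exp C * 1 :=
      mul_le_mul (hexpμ t) (Real.abs_cos_le_one (P t)) (abs_nonneg _) (Real.exp_pos _).le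
    linarith
  · intro t
    rw [abs_mul, abs_mul, abs_of_pos (Real.exp_pos _), abs_of_pos (Real.cosh_pos t), mul_assoc]
    have h6 : Real.exp (μ * ℓ t) * (|Real.sin (P t)| * Real.cosh t) ≤ Real.exp C * C :=
      mul_le_mul (hexpμ t) (hsb t) (mul_nonneg (abs_nonneg _) (Real.cosh_pos t).le)
        (Real.exp_pos _).le
    linarith
  · intro t
    rw [abs_mul, abs_mul, abs_of_pos (Real.exp_pos _), abs_of_pos (Real.cosh_pos t), mul_assoc]
    have h6 : Real.exp (ℓ t) * (|Real.sin (P t)| * Real.cosh t) ≤ Real.exp C * C :=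
      mul_le_mul (hexp t) (hsb t) (mul_nonneg (abs_nonneg _) (Real.cosh_pos t).le)
        (Real.exp_pos _).le
    linarith
  · intro t
    refine (hp t).trans (mul_le_mul_of_nonneg_right hMC ?_)
    linarith [Real.tanh_lt_one t]
  · intro t
    refine (hm t).trans (mul_le_mul_of_nonneg_right hMC ?_)
    linarith [Real.neg_one_lt_tanh t]

variable {μ : ℝ} (Pr : Prof μ)

/-- The solution. -/
noncomputable def uu (z : E) : ℝ :=
  if YY z = 0 then RR z ^ (Pr.k / 2) * (if 0 ≤ z 0 then Pr.Vp else Pr.Vm)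
  else bb (Pr.k / 2) Pr.V z

lemma uu_UU {z : E} (hz : z ∈ UU) : uu Pr z = bb (Pr.k / 2) Pr.V z := by
  have hY : 0 < YY z := hz
  unfold uu
  rw [if_neg hY.ne']

lemma hasFDerivAt_uu {z : E} (hz : z ∈ UU) :
    HasFDerivAt (uu Pr) (dbb (Pr.k / 2) Pr.V (Pr.β (tt z) / Real.cosh (tt z) ^ 2) z) z := by
  refine (hasFDerivAt_bb hz (Pr.dV (tt z))).congr_of_eventuallyEq ?_
  filter_upwards [isOpen_UU.mem_nhds hz] with w hw
  exact uu_UU Pr hw

lemma pd_uu_zero {z : E} (hz : z ∈ UU) :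
    pd 0 (uu Pr) z
      = RR z ^ (Pr.k / 2 - 1) * (Pr.k * z 0 * Pr.V (tt z) + Pr.β (tt z) * YY z / √(RR z)) := by
  unfold pd
  rw [(hasFDerivAt_uu Pr hz).fderiv]
  exact grad_u_zero hz

lemma pd_uu {z : E} (hz : z ∈ UU) {j : Fin 3} (hj : j ≠ 0) :
    pd j (uu Pr) z
      = z j * (RR z ^ (Pr.k / 2 - 1)
        * (Pr.k * Pr.V (tt z) - Real.tanh (tt z) * Pr.β (tt z))) := by
  unfold pd
  rw [(hasFDerivAt_uu Pr hz).fderiv]
  exact grad_u hz hj

lemma one_sub_tanh {z : E} (hz : z ∈ UU) (h0 : 0 ≤ z 0) :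
    1 - Real.tanh (tt z) ≤ YY z / RR z := by
  have hY : 0 < YY z := hz
  have hs := sqrt_pos hz
  have hR := RR_pos hz
  rw [tanh_tt hz]
  have hsq : √(RR z) ^ 2 = RR z := sqrt_sq
  have e : RR z = z 0 ^ 2 + YY z := rfl
  have h1 : z 0 ≤ √(RR z) := by
    apply Real.le_sqrt_of_sq_le
    rw [e]; linarith
  have e2 : 1 - z 0 / √(RR z) = (√(RR z) ^ 2 - z 0 * √(RR z)) / √(RR z) ^ 2 := by
    field_simp
  rw [e2, hsq]
  apply div_le_div_of_nonneg_right _ hR.le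
  nlinarith

lemma one_add_tanh {z : E} (hz : z ∈ UU) (h0 : z 0 ≤ 0) :
    1 + Real.tanh (tt z) ≤ YY z / RR z := by
  have hY : 0 < YY z := hz
  have hs := sqrt_pos hz
  have hR := RR_pos hz
  rw [tanh_tt hz]
  have hsq : √(RR z) ^ 2 = RR z := sqrt_sq
  have e : RR z = z 0 ^ 2 + YY z := rfl
  have h1 : - z 0 ≤ √(RR z) := by
    apply Real.le_sqrt_of_sq_le
    rw [e]; nlinarith
  have e2 : 1 + z 0 / √(RR z) = (√(RR z) ^ 2 + z 0 * √(RR z)) / √(RR z) ^ 2 := by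
    field_simp
  rw [e2, hsq]
  apply div_le_div_of_nonneg_right _ hR.le
  nlinarith

lemma rpow_sub_one_mul {z : E} (hz : z ∈ UU) :
    RR z ^ (Pr.k / 2) = RR z ^ (Pr.k / 2 - 1) * RR z := by
  rw [← Real.rpow_add_one (RR_pos hz).ne']
  congr 1
  ring

lemma uu_near_p {z : E} (hz : 0 < z 0) :
    |uu Pr z - RR z ^ (Pr.k / 2) * Pr.Vp| ≤ Pr.M * RR z ^ (Pr.k / 2 - 1) * YY z := by
  rcases (YY_nonneg z).eq_or_lt with h | h
  · unfold uu
    rw [if_pos h.symm, if_pos hz.le, ← h]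
    simp
  · have hU : z ∈ UU := h
    have hR := RR_pos hU
    have hRp : 0 < RR z ^ (Pr.k / 2 - 1) := Real.rpow_pos_of_pos hR _
    rw [uu_UU Pr hU]
    unfold bb
    rw [← mul_sub, abs_mul, rpow_sub_one_mul Pr hU, abs_of_pos (by positivity)]
    have h1 := Pr.limp (tt z)
    have h2 := one_sub_tanh hU hz.le
    have hM := Pr.hM
    calc RR z ^ (Pr.k / 2 - 1) * RR z * |Pr.V (tt z) - Pr.Vp|
        ≤ RR z ^ (Pr.k / 2 - 1) * RR z * (Pr.M * (YY z / RR z)) := by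
          apply mul_le_mul_of_nonneg_left _ (by positivity)
          exact h1.trans (mul_le_mul_of_nonneg_left h2 hM.le)
      _ = Pr.M * RR z ^ (Pr.k / 2 - 1) * YY z := by field_simp

lemma uu_near_m {z : E} (hz : z 0 < 0) :
    |uu Pr z - RR z ^ (Pr.k / 2) * Pr.Vm| ≤ Pr.M * RR z ^ (Pr.k / 2 - 1) * YY z := by
  rcases (YY_nonneg z).eq_or_lt with h | h
  · unfold uu
    rw [if_pos h.symm, if_neg hz.not_ge, ← h]
    simp
  · have hU : z ∈ UU := h
    have hR := RR_pos hU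
    have hRp : 0 < RR z ^ (Pr.k / 2 - 1) := Real.rpow_pos_of_pos hR _
    rw [uu_UU Pr hU]
    unfold bb
    rw [← mul_sub, abs_mul, rpow_sub_one_mul Pr hU, abs_of_pos (by positivity)]
    have h1 := Pr.limm (tt z)
    have h2 := one_add_tanh hU hz.le
    have hM := Pr.hM
    calc RR z ^ (Pr.k / 2 - 1) * RR z * |Pr.V (tt z) - Pr.Vm|
        ≤ RR z ^ (Pr.k / 2 - 1) * RR z * (Pr.M * (YY z / RR z)) := by
          apply mul_le_mul_of_nonneg_left _ (by positivity)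
          exact h1.trans (mul_le_mul_of_nonneg_left h2 hM.le)
      _ = Pr.M * RR z ^ (Pr.k / 2 - 1) * YY z := by field_simp

lemma uu_bound (z : E) : |uu Pr z| ≤ (Pr.M + |Pr.Vp| + |Pr.Vm|) * RR z ^ (Pr.k / 2) := by
  have hM := Pr.hM
  have hR : 0 ≤ RR z ^ (Pr.k / 2) := Real.rpow_nonneg (RR_nonneg z) _
  have h1 := abs_nonneg Pr.Vp
  have h2 := abs_nonneg Pr.Vm
  unfold uu bb
  split_ifs
  · rw [abs_mul, abs_of_nonneg hR]
    nlinarith
  · rw [abs_mul, abs_of_nonneg hR]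
    nlinarith
  · rw [abs_mul, abs_of_nonneg hR]
    have := Pr.VM (tt z)
    nlinarith

lemma hasFDerivAt_RRk (s : ℝ) (hs : 1 ≤ s) (z : E) :
    HasFDerivAt (fun z => RR z ^ s) ((s * RR z ^ (s - 1)) • dRR z) z :=
  (hasFDerivAt_RR z).rpow_const (Or.inr hs)

lemma YY_le {z₀ : E} (h : YY z₀ = 0) (z : E) : YY z ≤ ‖z - z₀‖ ^ 2 := by
  have h1 : z₀ 1 = 0 ∧ z₀ 2 = 0 := by
    unfold YY at h
    constructor <;> nlinarith [sq_nonneg (z₀ 1), sq_nonneg (z₀ 2)]
  rw [norm_sq]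
  unfold RR YY
  simp only [PiLp.sub_apply, h1.1, h1.2, sub_zero]
  have := sq_nonneg (z 0 - z₀ 0)
  linarith

lemma hasFDerivAt_axis_p {z₀ : E} (hX : 0 < z₀ 0) (hY : YY z₀ = 0) :
    HasFDerivAt (uu Pr)
      (Pr.Vp • ((Pr.k / 2 * RR z₀ ^ (Pr.k / 2 - 1)) • dRR z₀)) z₀ := by
  have hk2 := Pr.hk2
  have hM := Pr.hM
  have hD : HasFDerivAt (fun z => uu Pr z - RR z ^ (Pr.k / 2) * Pr.Vp) (0 : E →L[ℝ] ℝ) z₀ := by
    refine Asymptotics.IsBigO.hasFDerivAt (n := 2) ?_ (by norm_num)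
    refine Asymptotics.IsBigO.of_bound (Pr.M * (RR z₀ ^ (Pr.k / 2 - 1) + 1)) ?_
    have hnear : ∀ᶠ z in 𝓝 z₀, RR z ^ (Pr.k / 2 - 1) < RR z₀ ^ (Pr.k / 2 - 1) + 1 := by
      have : ContinuousAt (fun z : E => RR z ^ (Pr.k / 2 - 1)) z₀ :=
        continuous_RR.continuousAt.rpow_const (Or.inr (by linarith))
      exact this.eventually_lt_const (by linarith)
    have hpos : ∀ᶠ z : E in 𝓝 z₀, 0 < z 0 :=
      (continuous_coord 0).continuousAt.eventually_const_lt hX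
    filter_upwards [hnear, hpos] with z hz hz2
    rw [Real.norm_eq_abs, norm_pow, norm_norm]
    refine (uu_near_p Pr hz2).trans ?_
    have h5 := YY_le hY z
    have h6 := YY_nonneg z
    have h7 : 0 ≤ RR z ^ (Pr.k / 2 - 1) := Real.rpow_nonneg (RR_nonneg z) _
    have h8 : 0 ≤ Pr.M * (RR z₀ ^ (Pr.k / 2 - 1) + 1) :=
      mul_nonneg (by linarith) (by linarith)
    gcongr
  have h2 := (hasFDerivAt_RRk (Pr.k / 2) (by linarith) z₀).mul_const Pr.Vp
  have h3 := hD.add h2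
  rw [zero_add] at h3
  refine h3.congr_of_eventuallyEq ?_
  filter_upwards with w
  simp

lemma hasFDerivAt_axis_m {z₀ : E} (hX : z₀ 0 < 0) (hY : YY z₀ = 0) :
    HasFDerivAt (uu Pr)
      (Pr.Vm • ((Pr.k / 2 * RR z₀ ^ (Pr.k / 2 - 1)) • dRR z₀)) z₀ := by
  have hk2 := Pr.hk2
  have hM := Pr.hM
  have hD : HasFDerivAt (fun z => uu Pr z - RR z ^ (Pr.k / 2) * Pr.Vm) (0 : E →L[ℝ] ℝ) z₀ := by
    refine Asymptotics.IsBigO.hasFDerivAt (n := 2) ?_ (by norm_num)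
    refine Asymptotics.IsBigO.of_bound (Pr.M * (RR z₀ ^ (Pr.k / 2 - 1) + 1)) ?_
    have hnear : ∀ᶠ z in 𝓝 z₀, RR z ^ (Pr.k / 2 - 1) < RR z₀ ^ (Pr.k / 2 - 1) + 1 := by
      have : ContinuousAt (fun z : E => RR z ^ (Pr.k / 2 - 1)) z₀ :=
        continuous_RR.continuousAt.rpow_const (Or.inr (by linarith))
      exact this.eventually_lt_const (by linarith)
    have hpos : ∀ᶠ z : E in 𝓝 z₀, z 0 < 0 :=
      (continuous_coord 0).continuousAt.eventually_lt_const hX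
    filter_upwards [hnear, hpos] with z hz hz2
    rw [Real.norm_eq_abs, norm_pow, norm_norm]
    refine (uu_near_m Pr hz2).trans ?_
    have h5 := YY_le hY z
    have h6 := YY_nonneg z
    have h7 : 0 ≤ RR z ^ (Pr.k / 2 - 1) := Real.rpow_nonneg (RR_nonneg z) _
    have h8 : 0 ≤ Pr.M * (RR z₀ ^ (Pr.k / 2 - 1) + 1) :=
      mul_nonneg (by linarith) (by linarith)
    gcongr
  have h2 := (hasFDerivAt_RRk (Pr.k / 2) (by linarith) z₀).mul_const Pr.Vm
  have h3 := hD.add h2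
  rw [zero_add] at h3
  refine h3.congr_of_eventuallyEq ?_
  filter_upwards with w
  simp

lemma hasFDerivAt_zero : HasFDerivAt (uu Pr) (0 : E →L[ℝ] ℝ) 0 := by
  have hk2 := Pr.hk2
  have hM := Pr.hM
  refine Asymptotics.IsBigO.hasFDerivAt (n := 2) ?_ (by norm_num)
  refine Asymptotics.IsBigO.of_bound (Pr.M + |Pr.Vp| + |Pr.Vm|) ?_
  have hnear : ∀ᶠ z in 𝓝 (0 : E), RR z < 1 := by
    apply continuous_RR.continuousAt.eventually_lt_const
    rw [← norm_sq]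
    simp
  filter_upwards [hnear] with z hz
  rw [sub_zero, Real.norm_eq_abs, norm_pow, norm_norm, norm_sq]
  refine (uu_bound Pr z).trans ?_
  have : RR z ^ (Pr.k / 2) ≤ RR z := by
    conv_rhs => rw [← Real.rpow_one (RR z)]
    exact Real.rpow_le_rpow_of_exponent_ge' (RR_nonneg z) hz.le (by norm_num) (by linarith)
  have h3 : 0 ≤ Pr.M + |Pr.Vp| + |Pr.Vm| := by positivity
  exact mul_le_mul_of_nonneg_left this h3

lemma eq_zero_of {z : E} (hX : z 0 = 0) (hY : YY z = 0) : z = 0 := by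
  have := norm_sq z
  unfold RR at this
  rw [hX, hY] at this
  simpa using this

lemma differentiable_uu : Differentiable ℝ (uu Pr) := by
  intro z₀
  rcases (YY_nonneg z₀).eq_or_lt with hY | hY
  · rcases lt_trichotomy (z₀ 0) 0 with h | h | h
    · exact (hasFDerivAt_axis_m Pr h hY.symm).differentiableAt
    · rw [eq_zero_of h hY.symm]
      exact (hasFDerivAt_zero Pr).differentiableAt
    · exact (hasFDerivAt_axis_p Pr h hY.symm).differentiableAt
  · exact (hasFDerivAt_uu Pr (z := z₀) hY).differentiableAt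

/-- The gradient. -/
noncomputable def GG (z : E) : E := WithLp.toLp 2 fun i => pd i (uu Pr) z

lemma GG_apply (z : E) (i : Fin 3) : GG Pr z i = pd i (uu Pr) z := rfl

lemma norm_GG {z : E} (hz : z ∈ UU) : ‖GG Pr z‖ = RR z ^ ((Pr.k - 1) / 2) * Pr.ρ (tt z) := by
  have hR := RR_pos hz
  have hY : 0 < YY z := hz
  have hs := sqrt_pos hz
  have hρ := Pr.ρpos (tt z)
  have hT := tanh_tt hz
  have hc := cosh_tt hz
  have h1 : ‖GG Pr z‖ ^ 2 = (RR z ^ ((Pr.k - 1) / 2) * Pr.ρ (tt z)) ^ 2 := by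
    rw [EuclideanSpace.norm_sq_eq, Fin.sum_univ_three]
    simp only [GG_apply, pd_uu_zero Pr hz, pd_uu Pr hz (j := 1) (by decide),
      pd_uu Pr hz (j := 2) (by decide), Real.norm_eq_abs, sq_abs]
    have e1 : (RR z ^ ((Pr.k - 1) / 2)) ^ 2 = (RR z ^ (Pr.k / 2 - 1)) ^ 2 * RR z := by
      rw [← Real.rpow_mul_natCast hR.le, ← Real.rpow_mul_natCast hR.le,
        ← Real.rpow_add_one hR.ne']
      congr 1
      push_cast
      ring
    have eR : (RR z ^ ((Pr.k - 1) / 2) * Pr.ρ (tt z)) ^ 2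
        = (RR z ^ (Pr.k / 2 - 1)) ^ 2 * √(RR z) ^ 2
          * ((Pr.k * Pr.V (tt z)) ^ 2 + Pr.β (tt z) ^ 2 * (YY z / √(RR z) ^ 2)) := by
      rw [mul_pow, ← Pr.hρ, e1, sqrt_sq, ← hc]
      ring
    rw [eR, hT]
    have e2 : √(RR z) ^ 2 = z 0 ^ 2 + (z 1 ^ 2 + z 2 ^ 2) := sqrt_sq
    have e3 : YY z = z 1 ^ 2 + z 2 ^ 2 := rfl
    generalize RR z ^ (Pr.k / 2 - 1) = c
    generalize Pr.V (tt z) = v
    generalize Pr.β (tt z) = b
    generalize √(RR z) = s at hs e2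
    rw [e3]
    field_simp
    linear_combination (-(c ^ 2 * (Pr.k ^ 2 * v ^ 2 * s ^ 2 + b ^ 2 * (z 1 ^ 2 + z 2 ^ 2)))) * e2
  have h2 : 0 ≤ RR z ^ ((Pr.k - 1) / 2) * Pr.ρ (tt z) := by positivity
  exact (pow_left_inj₀ (norm_nonneg _) h2 (by norm_num)).mp h1

lemma inv_cosh_sq (t : ℝ) : 1 / Real.cosh t ^ 2 = 1 - Real.tanh t ^ 2 := by
  rw [Real.tanh_eq_sinh_div_cosh]
  have hc := Real.cosh_pos t
  have := Real.cosh_sq t
  field_simp
  linarith

/-- The coefficient function of the first component of the flux. -/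
noncomputable def ca (t : ℝ) : ℝ := Real.tanh t * Pr.A t + (1 - Real.tanh t ^ 2) * Pr.B t

/-- Its derivative. -/
noncomputable def ca' (t : ℝ) : ℝ :=
  (1 - Real.tanh t ^ 2) * Pr.A t + Real.tanh t * Pr.A' t
    - 2 * Real.tanh t * (1 - Real.tanh t ^ 2) * Pr.B t
    + (1 - Real.tanh t ^ 2) * (2 * Real.tanh t * Pr.B t - ((Pr.k - 1) * μ + 2) * Pr.A t)

/-- The coefficient function of the other components of the flux. -/
noncomputable def cb (t : ℝ) : ℝ := Pr.A t - Real.tanh t * Pr.B t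

/-- Its derivative. -/
noncomputable def cb' (t : ℝ) : ℝ :=
  Pr.A' t - (1 - Real.tanh t ^ 2) * Pr.B t
    - Real.tanh t * (2 * Real.tanh t * Pr.B t - ((Pr.k - 1) * μ + 2) * Pr.A t)

lemma hasDerivAt_ca (t : ℝ) : HasDerivAt (ca Pr) (ca' Pr t) t := by
  have hT := hasDerivAt_tanh t
  rw [inv_cosh_sq] at hT
  have h := (hT.mul (Pr.dA t)).add (((hT.pow 2).const_sub 1).mul (Pr.dB t))
  refine h.congr_deriv ?_
  unfold ca'
  simp
  ring

lemma hasDerivAt_cb (t : ℝ) : HasDerivAt (cb Pr) (cb' Pr t) t := by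
  have hT := hasDerivAt_tanh t
  rw [inv_cosh_sq] at hT
  have h := (Pr.dA t).sub (hT.mul (Pr.dB t))
  refine h.congr_deriv ?_
  unfold cb'
  ring

/-- The exponent of the flux. -/
noncomputable def ee : ℝ := ((Pr.k - 1) * μ - 1) / 2

/-- The other exponent of the flux. -/
noncomputable def ef : ℝ := (Pr.k - 1) * μ / 2

/-- The flux. -/
noncomputable def FF (j : Fin 3) (z : E) : ℝ :=
  if j = 0 then bb (ef Pr) (ca Pr) z else z j * bb (ee Pr) (cb Pr) z

lemma ef_eq {z : E} (hz : z ∈ UU) : RR z ^ ef Pr = RR z ^ ee Pr * √(RR z) := by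
  rw [← rpow_half_mul (RR_pos hz)]
  congr 1
  unfold ee ef
  ring

lemma FF_zero : FF Pr 0 = bb (ef Pr) (ca Pr) := by
  ext z
  unfold FF
  simp

lemma FF_ne {j : Fin 3} (hj : j ≠ 0) : FF Pr j = fun z => z j * bb (ee Pr) (cb Pr) z := by
  ext z
  unfold FF
  simp [hj]

lemma flux_eq {z : E} (hz : z ∈ UU) (j : Fin 3) :
    ‖GG Pr z‖ ^ (μ - 1) * GG Pr z j = FF Pr j z := by
  have hR := RR_pos hz
  have hs := sqrt_pos hz
  have hρ := Pr.ρpos (tt z)
  have hsq : √(RR z) ^ 2 = RR z := sqrt_sq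
  have e : RR z ^ (ee Pr) = (RR z ^ ((Pr.k - 1) / 2)) ^ (μ - 1) * RR z ^ (Pr.k / 2 - 1) := by
    rw [← Real.rpow_mul hR.le, ← Real.rpow_add hR]
    congr 1
    unfold ee
    ring
  rw [norm_GG Pr hz, GG_apply, Real.mul_rpow (by positivity) hρ.le]
  by_cases hj : j = 0
  · subst hj
    rw [pd_uu_zero Pr hz, FF_zero]
    unfold bb ca
    rw [Pr.hA, Pr.hB, ef_eq Pr hz, ← inv_cosh_sq, cosh_tt hz, tanh_tt hz, e]
    have hsq' : RR z = √(RR z) * √(RR z) := by rw [← pow_two, hsq]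
    generalize (RR z ^ ((Pr.k - 1) / 2)) ^ (μ - 1) = c1
    generalize RR z ^ (Pr.k / 2 - 1) = c2
    generalize √(RR z) = s at *
    rw [hsq']
    field_simp
  · rw [pd_uu Pr hz hj, FF_ne Pr hj]
    unfold bb cb
    beta_reduce
    rw [Pr.hA, Pr.hB, e]
    ring

lemma hasFDerivAt_FF_zero {z : E} (hz : z ∈ UU) :
    HasFDerivAt (FF Pr 0) (dbb (ef Pr) (ca Pr) (ca' Pr (tt z)) z) z := by
  rw [FF_zero]
  exact hasFDerivAt_bb hz (hasDerivAt_ca Pr (tt z))

lemma hasFDerivAt_FF {z : E} (hz : z ∈ UU) {j : Fin 3} (hj : j ≠ 0) :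
    HasFDerivAt (FF Pr j) (z j • dbb (ee Pr) (cb Pr) (cb' Pr (tt z)) z
      + bb (ee Pr) (cb Pr) z • pr j) z := by
  rw [FF_ne Pr hj]
  exact (hasFDerivAt_coord j z).mul (hasFDerivAt_bb hz (hasDerivAt_cb Pr (tt z)))

lemma pd_FF_zero {z : E} (hz : z ∈ UU) :
    pd 0 (FF Pr 0) z = RR z ^ (ee Pr) * (ca' Pr (tt z)
      + (Pr.k - 1) * μ * Real.tanh (tt z) * ca Pr (tt z)) := by
  have hR := RR_pos hz
  have hs := sqrt_pos hz
  have hsq : √(RR z) ^ 2 = RR z := sqrt_sq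
  unfold pd
  rw [(hasFDerivAt_FF_zero Pr hz).fderiv, dbb_single, dtt_single_zero, Real.rpow_sub_one hR.ne',
    ef_eq Pr hz, tanh_tt hz]
  unfold ef
  have hsq' : RR z = √(RR z) * √(RR z) := by rw [← pow_two, hsq]
  generalize RR z ^ ee Pr = c1
  generalize √(RR z) = s at *
  rw [hsq']
  field_simp

lemma pd_FF {z : E} (hz : z ∈ UU) {j : Fin 3} (hj : j ≠ 0) :
    pd j (FF Pr j) z = RR z ^ (ee Pr) * (cb Pr (tt z)
      - z j ^ 2 / YY z * Real.tanh (tt z) * cb' Pr (tt z)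
      + 2 * ee Pr * (z j ^ 2 / RR z) * cb Pr (tt z)) := by
  have hR := RR_pos hz
  have hY : 0 < YY z := hz
  have hs := sqrt_pos hz
  unfold pd
  rw [(hasFDerivAt_FF Pr hz hj).fderiv]
  simp only [_root_.add_apply, _root_.smul_apply, smul_eq_mul, dbb_single, pr_single]
  rw [dtt_single hz hj, Real.rpow_sub_one hR.ne', tanh_tt hz]
  unfold bb
  simp only [if_true]
  field_simp
  ring

lemma div_zero {z : E} (hz : z ∈ UU) : ∑ j, pd j (FF Pr j) z = 0 := by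
  have hR := RR_pos hz
  have hY : 0 < YY z := hz
  rw [Fin.sum_univ_three, pd_FF_zero Pr hz, pd_FF Pr hz (j := 1) (by decide),
    pd_FF Pr hz (j := 2) (by decide)]
  have hc : YY z / RR z = 1 - Real.tanh (tt z) ^ 2 := by
    rw [← cosh_tt hz, inv_cosh_sq]
  have e1 : z 1 ^ 2 / YY z + z 2 ^ 2 / YY z = 1 := by
    rw [← add_div]
    exact div_self hY.ne'
  have e2 : z 1 ^ 2 / RR z + z 2 ^ 2 / RR z = 1 - Real.tanh (tt z) ^ 2 := by
    rw [← hc, ← add_div]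
    rfl
  have e3 : z 2 ^ 2 / YY z = 1 - z 1 ^ 2 / YY z := by linarith
  have e4 : z 2 ^ 2 / RR z = 1 - Real.tanh (tt z) ^ 2 - z 1 ^ 2 / RR z := by linarith
  rw [e3, e4]
  unfold ca ca' cb cb' ee
  ring

lemma FF_bound {z : E} (hz : z ∈ UU) (j : Fin 3) :
    |FF Pr j z| ≤ 3 * Pr.M * RR z ^ (ef Pr) := by
  have hR := RR_pos hz
  have hM := Pr.hM
  have hs := sqrt_pos hz
  have h3 := Pr.AM (tt z)
  have h4 := Pr.BM (tt z)
  have hT : |Real.tanh (tt z)| ≤ 1 := Pool.Agent.Helper749.ConeOde.abs_tanh_le _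
  have hT2 : |1 - Real.tanh (tt z) ^ 2| ≤ 1 := by
    have := abs_le.mp hT
    rw [abs_le]
    constructor <;> nlinarith [this.1, this.2]
  by_cases hj : j = 0
  · subst hj
    rw [FF_zero]
    unfold bb
    rw [abs_mul, abs_of_pos (Real.rpow_pos_of_pos hR _), mul_comm]
    apply mul_le_mul_of_nonneg_right _ (Real.rpow_pos_of_pos hR _).le
    unfold ca
    refine (abs_add_le _ _).trans ?_
    rw [abs_mul, abs_mul]
    have h5 : |Real.tanh (tt z)| * |Pr.A (tt z)| ≤ 1 * Pr.M :=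
      mul_le_mul hT h3 (abs_nonneg _) (by norm_num)
    have h6 : |1 - Real.tanh (tt z) ^ 2| * |Pr.B (tt z)| ≤ 1 * Pr.M :=
      mul_le_mul hT2 h4 (abs_nonneg _) (by norm_num)
    linarith
  · rw [FF_ne Pr hj]
    unfold bb
    simp only
    rw [abs_mul, abs_mul, abs_of_pos (Real.rpow_pos_of_pos hR _)]
    have h1 : |z j| ≤ √(RR z) := by
      apply Real.abs_le_sqrt
      have : ‖z j‖ ≤ ‖z‖ := PiLp.norm_apply_le z j
      rw [← norm_sq, ← sq_abs]
      exact pow_le_pow_left₀ (abs_nonneg _) this 2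
    have h2 : |cb Pr (tt z)| ≤ 3 * Pr.M := by
      unfold cb
      refine (abs_sub _ _).trans ?_
      rw [abs_mul]
      have h8 : |Real.tanh (tt z)| * |Pr.B (tt z)| ≤ 1 * Pr.M :=
        mul_le_mul hT h4 (abs_nonneg _) (by norm_num)
      linarith
    rw [ef_eq Pr hz]
    have hRp := (Real.rpow_pos_of_pos hR (ee Pr)).le
    calc |z j| * (RR z ^ ee Pr * |cb Pr (tt z)|)
        ≤ √(RR z) * (RR z ^ ee Pr * (3 * Pr.M)) := by gcongr
      _ = 3 * Pr.M * (RR z ^ ee Pr * √(RR z)) := by ring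

end Pool.Agent.H230.C3.Sol
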